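import Pool.Agent.R421.EK.Cfv

/-!
# Project SN (helper818): characteristic functions of additive functions in arithmetic progressions
-/

set_option autoImplicit false

namespace Pool.Agent.N160.SN

open Finset Complex

open Pool.Agent.W262.RK (PS)
open Pool.Agent.R421.NR (yT)
open Pool.Agent.R421.EK (SS SS_eq mem_PS')

/-- the centred function of a class -/
noncomputable def hw (w : ℕ → ℝ) (M r : ℕ) : ∀ p : ℕ, ZMod p → ZMod p → ℝ := fun p x _ =>
  w p * ((if (M : ZMod p) * x + r = 0 then 1 else 0) - 1 / p)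

lemma sum_hw (w : ℕ → ℝ) (M r p : ℕ) (hp : p.Prime) (hM : ¬ p ∣ M) (G : ℝ → ℝ) :
    SS p (fun x y => G (hw w M r p x y)) =
      p * (G (w p * (1 - 1 / p)) + ((p : ℝ) - 1) * G (w p * (0 - 1 / p))) := by
  haveI : Fact p.Prime := ⟨hp⟩
  haveI : NeZero p := ⟨hp.ne_zero⟩
  rw [SS_eq]
  have h0 : (M : ZMod p) ≠ 0 := by rwa [Ne, ZMod.natCast_eq_zero_iff]
  have e : ∀ x : ZMod p, ∑ y : ZMod p, G (hw w M r p x y) = p * (G (w p * (0 - 1 / p)) +
      (if x = -(r : ZMod p) / M then G (w p * (1 - 1 / p)) - G (w p * (0 - 1 / p)) else 0)) := by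
    intro x
    unfold hw
    rw [sum_const, card_univ, ZMod.card, nsmul_eq_mul]
    congr 1
    have h1 : (M : ZMod p) * x + r = 0 ↔ x = -(r : ZMod p) / M := by
      rw [eq_div_iff h0]
      constructor
      · intro h
        linear_combination h
      · intro h
        linear_combination h
    by_cases h : x = -(r : ZMod p) / M
    · rw [if_pos h, if_pos (h1.2 h)]
      ring
    · rw [if_neg h, if_neg (fun h' => h (h1.1 h'))]
      ring
  rw [sum_congr rfl fun x _ => e x, ← mul_sum, sum_add_distrib, sum_const, card_univ, ZMod.card,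
    nsmul_eq_mul, sum_ite_eq' univ]
  simp only [mem_univ, if_true]
  ring

lemma hw_abs (w : ℕ → ℝ) (c : ℝ) (hwc : ∀ p, |w p| ≤ c) (M r p : ℕ) (x y : ZMod p) :
    |hw w M r p x y| ≤ c := by
  unfold hw
  rw [abs_mul]
  have h0 : (0 : ℝ) ≤ 1 / p := by positivity
  have h1 : (1 : ℝ) / p ≤ 1 := by
    rcases Nat.eq_zero_or_pos p with rfl | hp
    · simp
    · rw [div_le_one (by exact_mod_cast hp)]
      exact_mod_cast hp
  have h2 : |(if (M : ZMod p) * x + r = 0 then 1 else 0) - 1 / (p : ℝ)| ≤ 1 := by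
    split_ifs <;> rw [abs_le] <;> constructor <;> linarith
  calc |w p| * |(if (M : ZMod p) * x + r = 0 then 1 else 0) - 1 / (p : ℝ)| ≤ |w p| * 1 :=
        mul_le_mul_of_nonneg_left h2 (abs_nonneg _)
    _ ≤ c := by rw [mul_one]; exact hwc p

/-- characteristic functions of additive functions in arithmetic progressions -/
theorem ap_cf (w : ℕ → ℝ) (c : ℝ) (hc : 1 ≤ c) (hwc : ∀ p, 2 * |w p| ≤ c) (v C3 : ℝ) (hv : 0 ≤ v)
    (hC3 : 0 ≤ C3) (z : ℕ) (hz : 10 ≤ z) (hwC : ∀ y : ℕ, z < y →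
      |∑ p ∈ PS z y, w p ^ 2 * (1 / (p : ℝ)) - v * ∑ p ∈ PS z y, 1 / (p : ℝ)| ≤ C3)
    (M r : ℕ) (hM : 1 ≤ M) (hMz : M ≤ z) (ε : ℝ) (hε : 0 < ε) :
    ∃ T0 : ℕ, ∀ T : ℕ, T0 ≤ T → ∀ K : ℕ, T ≤ K →
      ‖(∑ j ∈ range K, cexp (((((∑ p ∈ PS z (yT T), w p * ((if p ∣ M * j + r then 1 else 0) -
          1 / (p : ℝ))) / √(Real.log (Real.log T)) : ℝ) : ℂ) * I))) / (K : ℂ) -
            ((Real.exp (-(v / 2)) : ℝ) : ℂ)‖ ≤ ε := by
  have hwc' : ∀ p, |w p| ≤ c := fun p => by
    have h1 := hwc p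
    have h2 := abs_nonneg (w p)
    linarith
  have hdv : ∀ p : ℕ, p.Prime → z < p → ¬ p ∣ M := fun p _ hp hd => by
    have := Nat.le_of_dvd (by omega) hd
    omega
  obtain ⟨T0, hT0⟩ := Pool.Agent.R421.EK.cfv (hw w M r) z hz c 0 v (fun p => w p ^ 2) (c ^ 2) C3 hc
    hv (fun p => sq_nonneg _) (fun p => by
      rw [← sq_abs]
      exact pow_le_pow_left₀ (abs_nonneg _) (hwc' p) 2) hC3 hwC (by rw [abs_zero]; linarith)
    (hw_abs w c hwc' M r) (fun p hp hzp => by
      have h := sum_hw w M r p hp (hdv p hp hzp) id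
      have hp0 : (p : ℝ) ≠ 0 := by exact_mod_cast hp.ne_zero
      simp only [id] at h
      rw [zero_mul]
      refine h.trans ?_
      field_simp
      ring) (fun p hp hzp => by
      have h := sum_hw w M r p hp (hdv p hp hzp) (fun x => x ^ 2)
      have hp0 : (p : ℝ) ≠ 0 := by exact_mod_cast hp.ne_zero
      refine h.trans ?_
      field_simp
      ring) (fun p hp hzp => by
      have h := sum_hw w M r p hp (hdv p hp hzp) (fun x => |x|)
      have hp0 : (0 : ℝ) < p := by exact_mod_cast hp.pos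
      have hp1 : (1 : ℝ) ≤ p := by exact_mod_cast hp.one_lt.le
      refine h.trans_le ?_
      have a1 : |w p * (1 - 1 / (p : ℝ))| = |w p| * (1 - 1 / p) := by
        rw [abs_mul, abs_of_nonneg (a := 1 - 1 / (p : ℝ))]
        rw [sub_nonneg, div_le_one hp0]
        exact hp1
      have a2 : |w p * (0 - 1 / (p : ℝ))| = |w p| * (1 / p) := by
        rw [abs_mul, zero_sub, abs_neg, abs_of_nonneg (a := 1 / (p : ℝ)) (by positivity)]
      rw [a1, a2]
      have e : (p : ℝ) * (|w p| * (1 - 1 / p) + (p - 1) * (|w p| * (1 / p))) =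
          2 * |w p| * (p - 1) := by
        field_simp
        ring
      rw [e]
      have h1 := hwc p
      nlinarith [abs_nonneg (w p)]) ε hε
  refine ⟨max T0 1, fun T hT K hK => ?_⟩
  have h := hT0 T (le_of_max_le_left hT) (-1) 0 K K hK hK
  have hK1 : 1 ≤ K := (le_of_max_le_right hT).trans hK
  have hK0 : (K : ℂ) ≠ 0 := by exact_mod_cast (by omega : K ≠ 0)
  refine le_of_eq_of_le ?_ h
  congr 2
  rw [sum_product]
  have e1 : ∀ s : ℤ, ∑ t ∈ Ioc (0 : ℤ) (0 + K), cexp (((((∑ p ∈ PS z (yT T),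
      hw w M r p ((s, t).1 : ZMod p) ((s, t).2 : ZMod p)) - 0 * Real.log (Real.log T)) /
        √(Real.log (Real.log T)) : ℝ) : ℂ) * I) =
      K * cexp (((((∑ p ∈ PS z (yT T), hw w M r p (s : ZMod p) 0)) /
        √(Real.log (Real.log T)) : ℝ) : ℂ) * I) := by
    intro s
    have e2 : ∀ t ∈ Ioc (0 : ℤ) (0 + K), cexp (((((∑ p ∈ PS z (yT T),
      hw w M r p ((s, t).1 : ZMod p) ((s, t).2 : ZMod p)) - 0 * Real.log (Real.log T)) /
        √(Real.log (Real.log T)) : ℝ) : ℂ) * I) =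
      cexp (((((∑ p ∈ PS z (yT T), hw w M r p (s : ZMod p) 0)) /
        √(Real.log (Real.log T)) : ℝ) : ℂ) * I) := by
      intro t _
      rw [zero_mul, sub_zero]
      rfl
    rw [sum_congr rfl e2, sum_const, Int.card_Ioc, nsmul_eq_mul]
    congr 1
    simp
  rw [sum_congr rfl fun s _ => e1 s, ← mul_sum]
  have e3 : ∑ s ∈ Ioc (-1 : ℤ) (-1 + K), cexp (((((∑ p ∈ PS z (yT T),
      hw w M r p (s : ZMod p) 0)) / √(Real.log (Real.log T)) : ℝ) : ℂ) * I) =
      ∑ j ∈ range K, cexp (((((∑ p ∈ PS z (yT T), w p * ((if p ∣ M * j + r then 1 else 0) -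
          1 / (p : ℝ))) / √(Real.log (Real.log T)) : ℝ) : ℂ) * I)) := by
    symm
    refine sum_bij (fun j _ => (j : ℤ)) ?_ ?_ ?_ ?_
    · intro j hj
      rw [mem_range] at hj
      rw [mem_Ioc]
      omega
    · intro a _ b _ h
      exact_mod_cast h
    · intro b hb
      rw [mem_Ioc] at hb
      refine ⟨b.toNat, ?_, ?_⟩
      · rw [mem_range]
        omega
      · omega
    · intro j _
      congr 4
      refine sum_congr rfl fun p _ => ?_
      unfold hw
      have h1 : (M : ZMod p) * ((j : ℤ) : ZMod p) + r = 0 ↔ p ∣ M * j + r := by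
        rw [← ZMod.natCast_eq_zero_iff]
        push_cast
        rfl
      by_cases h2 : p ∣ M * j + r
      · rw [if_pos h2, if_pos (h1.2 h2)]
      · rw [if_neg h2, if_neg (fun h' => h2 (h1.1 h'))]
  rw [e3]
  push_cast
  rw [mul_div_mul_left _ _ hK0]

end Pool.Agent.N160.SN
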