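import Pool.Agent.Y405.CQ.MER
import Pool.Agent.W262.RK.Defs

/-!
# Project SN (helper818): sums of a function modulo twelve over the primes
-/

set_option autoImplicit false

namespace Pool.Agent.N160.SN

open Finset

open Pool.Agent.W262.RK (PS)

/-- sums of a function modulo twelve over the primes -/
theorem mer12 (h : ℕ → ℝ) (hm : ∀ p, h (p % 12) = h p) (z : ℕ) (hz : 10 ≤ z) :
    ∃ C : ℝ, 0 ≤ C ∧ ∀ y : ℕ, z < y → |∑ p ∈ PS z y, h p * (1 / (p : ℝ)) -
      (h 1 + h 5 + h 7 + h 11) / 4 * Real.log (Real.log y)| ≤ C := by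
  obtain ⟨Q, hQ⟩ : ∃ Q : Finset ℕ, Q = {1, 5, 7, 11} := ⟨_, rfl⟩
  have hM : ∀ a : ℕ, ∃ C : ℝ, a ∈ Q → (0 ≤ C ∧ ∀ x : ℕ, 3 ≤ x →
      |∑ p ∈ (Icc 1 x).filter (fun p => p.Prime ∧ p % 12 = a), (1 : ℝ) / p -
        1 / 4 * Real.log (Real.log x)| ≤ C) := by
    intro a
    by_cases ha : a ∈ Q
    · have h12 : a < 12 ∧ a.Coprime 12 := by
        rw [hQ] at ha
        simp only [mem_insert, mem_singleton] at ha
        rcases ha with rfl | rfl | rfl | rfl <;> exact ⟨by norm_num, by decide⟩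
      obtain ⟨C, h0, hC⟩ := Pool.Agent.Y405.CQ.mertens_ap 12 (by norm_num) a h12.1 h12.2
      refine ⟨C, fun _ => ⟨h0, fun x hx => ?_⟩⟩
      have h1 := hC x hx
      have h2 : Nat.totient 12 = 4 := by decide
      rw [h2] at h1
      exact_mod_cast h1
    · exact ⟨0, fun h' => absurd h' ha⟩
  choose C hC using hM
  obtain ⟨S, hS⟩ : ∃ S : ℕ → ℕ → ℝ, S = fun (a x : ℕ) =>
    ∑ p ∈ (Icc 1 x).filter (fun p : ℕ => p.Prime ∧ p % 12 = a), (1 : ℝ) / p := ⟨_, rfl⟩
  refine ⟨∑ a ∈ Q, |h a| * (C a + |S a z|), sum_nonneg fun a ha =>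
    mul_nonneg (abs_nonneg _) (add_nonneg (hC a ha).1 (abs_nonneg _)), fun y hy => ?_⟩
  have hmap : ∀ p ∈ PS z y, p % 12 ∈ Q := by
    intro p hp
    unfold PS at hp
    rw [mem_filter, mem_Ioc] at hp
    obtain ⟨⟨h1, h2⟩, h3⟩ := hp
    have h4 : ¬ 2 ∣ p := fun hd => by
      have := (Nat.prime_dvd_prime_iff_eq Nat.prime_two h3).1 hd
      omega
    have h5 : ¬ 3 ∣ p := fun hd => by
      have := (Nat.prime_dvd_prime_iff_eq Nat.prime_three h3).1 hd
      omega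
    rw [hQ]
    simp only [mem_insert, mem_singleton]
    omega
  have e1 : ∑ p ∈ PS z y, h p * (1 / (p : ℝ)) = ∑ a ∈ Q, h a * (S a y - S a z) := by
    rw [← sum_fiberwise_of_maps_to hmap]
    refine sum_congr rfl fun a _ => ?_
    have e2 : ∑ p ∈ (PS z y).filter (fun p => p % 12 = a), h p * (1 / (p : ℝ)) =
        h a * ∑ p ∈ (PS z y).filter (fun p => p % 12 = a), (1 / (p : ℝ)) := by
      rw [mul_sum]
      refine sum_congr rfl fun p hp => ?_
      rw [← hm p, (mem_filter.1 hp).2]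
    rw [e2]
    congr 1
    rw [eq_sub_iff_add_eq, hS]
    simp only
    rw [← sum_union]
    · congr 1
      ext p
      unfold PS
      simp only [mem_union, mem_filter, mem_Ioc, mem_Icc]
      constructor
      · rintro (⟨⟨⟨a1, a2⟩, a3⟩, a4⟩ | ⟨⟨a1, a2⟩, a3, a4⟩)
        · exact ⟨⟨by omega, a2⟩, a3, a4⟩
        · exact ⟨⟨a1, by omega⟩, a3, a4⟩
      · rintro ⟨⟨a1, a2⟩, a3, a4⟩
        by_cases hp : p ≤ z
        · exact Or.inr ⟨⟨a1, hp⟩, a3, a4⟩
        · exact Or.inl ⟨⟨⟨by omega, a2⟩, a3⟩, a4⟩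
    · rw [disjoint_left]
      intro p h1 h2
      unfold PS at h1
      rw [mem_filter, mem_filter, mem_Ioc] at h1
      rw [mem_filter, mem_Icc] at h2
      omega
  have e3 : (h 1 + h 5 + h 7 + h 11) / 4 * Real.log (Real.log y) =
      ∑ a ∈ Q, h a * (1 / 4 * Real.log (Real.log y)) := by
    rw [hQ]
    rw [sum_insert (by decide), sum_insert (by decide), sum_insert (by decide), sum_singleton]
    ring
  rw [e1, e3, ← sum_sub_distrib]
  refine (abs_sum_le_sum_abs _ _).trans (sum_le_sum fun a ha => ?_)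
  have e4 : h a * (S a y - S a z) - h a * (1 / 4 * Real.log (Real.log y)) =
      h a * ((S a y - 1 / 4 * Real.log (Real.log y)) - S a z) := by ring
  rw [e4, abs_mul]
  refine mul_le_mul_of_nonneg_left ?_ (abs_nonneg _)
  refine (abs_sub _ _).trans (add_le_add ?_ le_rfl)
  have h1 := (hC a ha).2 y (by omega)
  rw [hS]
  exact h1

end Pool.Agent.N160.SN
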