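import Pool.Agent.N160.SN.Lim
import Pool.Agent.N160.SN.Mer
import Pool.Agent.R421.EK.Law
import Pool.Agent.N818.SN.Stm3

/-!
# Project SN (helper818): the joint Gaussian law
-/

set_option autoImplicit false

open scoped Classical

namespace Pool.Agent.N160.SN

open Finset Complex Filter Topology ProbabilityTheory

open Pool.Agent.W262.RK (PS)
open Pool.Agent.N818.SN (mB mC)

/-- the weights -/
noncomputable def w0 (u v : ℝ) (p : ℕ) : ℝ :=
  (if p % 12 = 5 ∨ p % 12 = 11 then u else 0) + (if p % 12 = 5 ∨ p % 12 = 7 then v else 0)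

lemma w0_mod (u v : ℝ) (p : ℕ) : w0 u v (p % 12) = w0 u v p := by
  unfold w0
  rw [Nat.mod_mod]

lemma sum_w0 (u v : ℝ) (n : ℕ) : ∑ p ∈ n.primeFactors, w0 u v p = u * mB n + v * mC n := by
  unfold w0 mB mC
  rw [sum_add_distrib, ← sum_filter, ← sum_filter, sum_const, sum_const, nsmul_eq_mul,
    nsmul_eq_mul, mul_comm u, mul_comm v]

lemma w0_abs (u v : ℝ) (p : ℕ) : |w0 u v p| ≤ |u| + |v| := by
  unfold w0
  have hu := abs_nonneg u
  have hv := abs_nonneg v
  refine (abs_add_le _ _).trans (add_le_add ?_ ?_)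
  · split_ifs
    · exact le_rfl
    · rw [abs_zero]
      exact hu
  · split_ifs
    · exact le_rfl
    · rw [abs_zero]
      exact hv

lemma gauss_cont : Continuous fun x : ℝ => (gaussianReal 0 1).real (Set.Iic x) := by
  haveI : MeasureTheory.NullSingletonClass (gaussianReal 0 1) :=
    nullSingletonClass_gaussianReal one_ne_zero
  have h : Continuous (cdf (gaussianReal 0 1)) := by
    refine continuous_iff_continuousAt.2 fun a => ?_
    rw [(monotone_cdf _).continuousAt_iff_leftLim_eq_rightLim, StieltjesFunction.rightLim_eq]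
    have h1 : (cdf (gaussianReal 0 1)).measure {a} = 0 := by rw [measure_cdf]; simp
    rw [StieltjesFunction.measure_singleton] at h1
    have h2 : Function.leftLim (cdf (gaussianReal 0 1)) a ≤ cdf (gaussianReal 0 1) a :=
      (monotone_cdf _).leftLim_le le_rfl
    have h3 := ENNReal.ofReal_eq_zero.1 h1
    linarith
  refine h.congr fun x => ?_
  rw [cdf_eq_real]

lemma SQ_nonempty (n : ℕ) : (SQ (n + 11)).Nonempty := by
  refine ⟨11, ?_⟩
  unfold SQ
  rw [mem_filter, mem_Icc]
  exact ⟨⟨by norm_num, by omega⟩, (by norm_num : Nat.Prime 11).prime.squarefree, rfl⟩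

/-- the law with the normalization at the square root -/
lemma law_sqrt (u v : ℝ) (huv : u ≠ 0 ∨ v ≠ 0) (x : ℝ) : Tendsto (fun X : ℕ =>
    (((SQ X).filter fun n => (u * mB n + v * mC n - (u + v) / 2 * Real.log (Real.log (Nat.sqrt X))) /
      (√((u ^ 2 + u * v + v ^ 2) / 2) * √(Real.log (Real.log (Nat.sqrt X)))) ≤ x).card : ℝ) /
        ((SQ X).card : ℝ)) atTop (𝓝 ((gaussianReal 0 1).real (Set.Iic x))) := by
  obtain ⟨V, hV⟩ : ∃ V : ℝ, V = (u ^ 2 + u * v + v ^ 2) / 2 := ⟨_, rfl⟩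
  have hV0 : 0 < V := by
    rw [hV]
    rcases huv with h | h
    · have := sq_pos_of_ne_zero h
      nlinarith [sq_nonneg (u + 2 * v)]
    · have := sq_pos_of_ne_zero h
      nlinarith [sq_nonneg (2 * u + v)]
  rw [← hV]
  have hsV : 0 < √V := Real.sqrt_pos.2 hV0
  have hsV2 : √V ^ 2 = V := Real.sq_sqrt hV0.le
  have key : ∀ θ : ℝ, Tendsto (fun X : ℕ => (∑ n ∈ SQ X, cexp ((((∑ p ∈ n.primeFactors,
      (θ / √V * w0 u v p) - (θ / √V * ((u + v) / 2)) * Real.log (Real.log (Nat.sqrt X))) /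
        √(Real.log (Real.log (Nat.sqrt X))) : ℝ) : ℂ) * I)) /
        ((SQ X).card : ℂ)) atTop (𝓝 ((Real.exp (-(θ ^ 2 / 2)) : ℝ) : ℂ)) := by
    intro θ
    refine sq_cf (fun p => θ / √V * w0 u v p) (2 * (|θ / √V| * (|u| + |v|)) + 1) ?_ ?_
      (θ / √V * ((u + v) / 2)) (θ ^ 2) (sq_nonneg _) ?_ ?_
    · have : 0 ≤ |θ / √V| * (|u| + |v|) := by positivity
      linarith
    · intro p
      rw [abs_mul]
      have h1 := mul_le_mul_of_nonneg_left (w0_abs u v p) (abs_nonneg (θ / √V))
      linarith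
    · intro z hz
      obtain ⟨C, hC0, hC⟩ := mer12 (fun p => θ / √V * w0 u v p)
        (fun p => by simp only [w0_mod]) z hz
      refine ⟨C, hC0, fun y hy => ?_⟩
      have h1 := hC y hy
      have e : (θ / √V * w0 u v 1 + θ / √V * w0 u v 5 + θ / √V * w0 u v 7 +
          θ / √V * w0 u v 11) / 4 = θ / √V * ((u + v) / 2) := by
        unfold w0
        norm_num
        ring
      simp only [e] at h1
      exact h1
    · intro z hz
      obtain ⟨C, hC0, hC⟩ := mer12 (fun p => (θ / √V * w0 u v p) ^ 2)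
        (fun p => by simp only [w0_mod]) z hz
      obtain ⟨C', hC'0, hC'⟩ := mer12 (fun _ => 1) (fun _ => rfl) z hz
      refine ⟨C + θ ^ 2 * C', by positivity, fun y hy => ?_⟩
      have h1 := hC y hy
      have h2 := hC' y hy
      have e : ((θ / √V * w0 u v 1) ^ 2 + (θ / √V * w0 u v 5) ^ 2 + (θ / √V * w0 u v 7) ^ 2 +
          (θ / √V * w0 u v 11) ^ 2) / 4 = θ ^ 2 := by
        have e1 : w0 u v 1 = 0 := by unfold w0; norm_num
        have e5 : w0 u v 5 = u + v := by unfold w0; norm_num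
        have e7 : w0 u v 7 = v := by unfold w0; norm_num
        have e11 : w0 u v 11 = u := by unfold w0; norm_num
        rw [e1, e5, e7, e11]
        have e2 : ((θ / √V * 0) ^ 2 + (θ / √V * (u + v)) ^ 2 + (θ / √V * v) ^ 2 +
            (θ / √V * u) ^ 2) / 4 = θ ^ 2 * ((u ^ 2 + u * v + v ^ 2) / 2) / √V ^ 2 := by
          field_simp
          ring
        rw [e2, hsV2, ← hV]
        field_simp
      simp only [e] at h1
      norm_num at h2
      have e2 : ∑ p ∈ PS z y, (θ / √V * w0 u v p) ^ 2 * (1 / (p : ℝ)) -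
          θ ^ 2 * ∑ p ∈ PS z y, 1 / (p : ℝ) =
          (∑ p ∈ PS z y, (θ / √V * w0 u v p) ^ 2 * (1 / (p : ℝ)) -
            θ ^ 2 * Real.log (Real.log y)) -
          θ ^ 2 * (∑ p ∈ PS z y, 1 / (p : ℝ) - Real.log (Real.log y)) := by ring
      rw [e2]
      refine (abs_sub _ _).trans (add_le_add h1 ?_)
      rw [abs_mul, abs_of_nonneg (sq_nonneg θ)]
      refine mul_le_mul_of_nonneg_left ?_ (sq_nonneg θ)
      simpa using h2
  have h := Pool.Agent.R421.EK.law_of (ι := Unit) (fun n => SQ (n + 11)) SQ_nonempty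
    (fun n m _ => (u * mB m + v * mC m -
      (u + v) / 2 * Real.log (Real.log (Nat.sqrt (n + 11)))) /
      (√V * √(Real.log (Real.log (Nat.sqrt (n + 11)))))) (fun θ => by
      have h1 := (key (θ ())).comp (tendsto_add_atTop_nat 11)
      have e : -(∑ i, θ i ^ 2) / 2 = -((θ ()) ^ 2 / 2) := by
        rw [Fintype.sum_unique]
        have : (default : Unit) = () := rfl
        rw [this]
        ring
      rw [e]
      refine h1.congr fun n => ?_
      simp only [Function.comp_apply]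
      congr 1
      refine sum_congr rfl fun m _ => ?_
      congr 3
      rw [Fintype.sum_unique, ← mul_sum, sum_w0]
      have : (default : Unit) = () := rfl
      rw [this]
      rw [mul_comm (√V), ← div_div]
      ring) (fun _ => x)
  rw [Fintype.prod_unique] at h
  rw [← tendsto_add_atTop_iff_nat 11]
  refine h.congr fun n => ?_
  congr 2
  refine congrArg _ (filter_congr fun m _ => ?_)
  constructor
  · exact fun h1 => h1 ()
  · exact fun h1 _ => h1

lemma ll_cmp (X : ℕ) (hX : 9 ≤ X) : Real.log (Real.log (Nat.sqrt X)) ≤ Real.log (Real.log X) ∧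
    Real.log (Real.log X) ≤ Real.log (Real.log (Nat.sqrt X)) + 2 := by
  have hs : 3 ≤ Nat.sqrt X := by
    rw [Nat.le_sqrt']
    exact hX
  have hsr : (3 : ℝ) ≤ Nat.sqrt X := by exact_mod_cast hs
  have h1 : X < (Nat.sqrt X + 1) ^ 2 := Nat.lt_succ_sqrt' X
  have h2 : X ≤ Nat.sqrt X ^ 4 := by
    have h3 : Nat.sqrt X + 1 ≤ Nat.sqrt X ^ 2 := by nlinarith
    calc X ≤ (Nat.sqrt X + 1) ^ 2 := h1.le
      _ ≤ (Nat.sqrt X ^ 2) ^ 2 := Nat.pow_le_pow_left h3 2
      _ = Nat.sqrt X ^ 4 := by rw [← pow_mul]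
  have h3 : Nat.sqrt X ≤ X := Nat.sqrt_le_self X
  have h2r : (X : ℝ) ≤ (Nat.sqrt X : ℝ) ^ 4 := by exact_mod_cast h2
  have h3r : (Nat.sqrt X : ℝ) ≤ X := by exact_mod_cast h3
  have hX0 : (0 : ℝ) < X := by linarith
  have hl0 : 0 < Real.log (Nat.sqrt X) := Real.log_pos (by linarith)
  have hl1 : Real.log (Nat.sqrt X) ≤ Real.log X := Real.log_le_log (by linarith) h3r
  have hl2 : Real.log X ≤ 4 * Real.log (Nat.sqrt X) := by
    have := Real.log_le_log hX0 h2r
    rw [Real.log_pow] at this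
    exact_mod_cast this
  refine ⟨Real.log_le_log hl0 hl1, ?_⟩
  have h4 := Real.log_le_log (by linarith) hl2
  rw [Real.log_mul (by norm_num) hl0.ne'] at h4
  have h5 : Real.log 4 ≤ 2 := by
    have h6 : (4 : ℝ) = 2 ^ 2 := by norm_num
    rw [h6, Real.log_pow]
    have := Real.log_two_lt_d9
    push_cast
    linarith
  linarith

/-- the joint Gaussian law -/
theorem t_GLC : Pool.Agent.N818.SN.S_GLC := by
  intro u v t huv
  have hlaw := law_sqrt u v huv
  obtain ⟨V, hV⟩ : ∃ V : ℝ, V = (u ^ 2 + u * v + v ^ 2) / 2 := ⟨_, rfl⟩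
  have hV0 : 0 < V := by
    rw [hV]
    rcases huv with h | h
    · have := sq_pos_of_ne_zero h
      nlinarith [sq_nonneg (u + 2 * v)]
    · have := sq_pos_of_ne_zero h
      nlinarith [sq_nonneg (2 * u + v)]
  have hsV : 0 < √V := Real.sqrt_pos.2 hV0
  rw [← hV] at hlaw ⊢
  have e0 : ∀ X : ℕ, (((Icc 1 X).filter fun n => (Squarefree n ∧ n % 24 = 11) ∧
      u * mB n + v * mC n ≤ (u + v) / 2 * Real.log (Real.log X) +
      t * √(V * Real.log (Real.log X))).card : ℝ) /
      (((Icc 1 X).filter fun n => Squarefree n ∧ n % 24 = 11).card : ℝ) =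
      (((SQ X).filter fun n => u * mB n + v * mC n ≤ (u + v) / 2 * Real.log (Real.log X) +
      t * √(V * Real.log (Real.log X))).card : ℝ) / ((SQ X).card : ℝ) := by
    intro X
    unfold SQ
    rw [filter_filter]
  refine Tendsto.congr (fun X => (e0 X).symm) ?_
  -- the comparison of the thresholds
  have hthr : ∀ δ : ℝ, 0 < δ → ∀ᶠ X : ℕ in atTop, 0 < Real.log (Real.log (Nat.sqrt X)) ∧
      |(u + v) / 2 * Real.log (Real.log X) + t * √(V * Real.log (Real.log X)) -
        ((u + v) / 2 * Real.log (Real.log (Nat.sqrt X)) +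
          t * (√V * √(Real.log (Real.log (Nat.sqrt X)))))| ≤
        δ * (√V * √(Real.log (Real.log (Nat.sqrt X)))) := by
    intro δ hδ
    obtain ⟨E, hE⟩ : ∃ E : ℝ, E = (|(u + v) / 2| * 2 + |t| * √V * 2) / (δ * √V) := ⟨_, rfl⟩
    have hE0 : 0 ≤ E := by
      rw [hE]
      positivity
    obtain ⟨X1, hX1⟩ := Pool.Agent.R421.NR.big_ll ((E + 1) ^ 2)
    rw [eventually_atTop]
    refine ⟨(X1 + 9) ^ 2, fun X hX => ?_⟩
    have hs : X1 + 9 ≤ Nat.sqrt X := by
      rw [Nat.le_sqrt']
      exact hX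
    have hX9 : 9 ≤ X := by
      have := Nat.sqrt_le_self X
      omega
    have h1 := hX1 (Nat.sqrt X) (by omega)
    obtain ⟨h2, h3⟩ := ll_cmp X hX9
    generalize Real.log (Real.log (Nat.sqrt X)) = ℓ at h1 h2 h3 ⊢
    generalize Real.log (Real.log (X : ℝ)) = L at h2 h3 ⊢
    have hsl : E + 1 ≤ √ℓ := Real.le_sqrt_of_sq_le h1
    have hsl1 : 1 ≤ √ℓ := by linarith
    have hℓ0 : 0 < ℓ := by nlinarith
    have hsq : √ℓ ^ 2 = ℓ := Real.sq_sqrt hℓ0.le
    have hsq' : √L ^ 2 = L := Real.sq_sqrt (by linarith)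
    have hle : √ℓ ≤ √L := Real.sqrt_le_sqrt h2
    have hdiff : √L - √ℓ ≤ 2 := by
      have h4 : (√L - √ℓ) * (√L + √ℓ) ≤ 2 := by nlinarith
      nlinarith
    refine ⟨hℓ0, ?_⟩
    rw [Real.sqrt_mul hV0.le]
    have e : (u + v) / 2 * L + t * (√V * √L) - ((u + v) / 2 * ℓ + t * (√V * √ℓ)) =
        (u + v) / 2 * (L - ℓ) + t * √V * (√L - √ℓ) := by ring
    rw [e]
    have h5 : |(u + v) / 2 * (L - ℓ) + t * √V * (√L - √ℓ)| ≤ |(u + v) / 2| * 2 + |t| * √V * 2 := by
      refine (abs_add_le _ _).trans (add_le_add ?_ ?_)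
      · rw [abs_mul, abs_of_nonneg (a := L - ℓ) (by linarith)]
        exact mul_le_mul_of_nonneg_left (by linarith) (abs_nonneg _)
      · rw [abs_mul, abs_mul, abs_of_pos hsV, abs_of_nonneg (a := √L - √ℓ) (by linarith)]
        exact mul_le_mul_of_nonneg_left hdiff (by positivity)
    refine h5.trans ?_
    have h6 : E * (δ * √V) = |(u + v) / 2| * 2 + |t| * √V * 2 := by
      rw [hE]
      field_simp
    rw [← h6]
    have h7 : 0 < δ * √V := by positivity
    nlinarith
  have hup : ∀ δ : ℝ, 0 < δ → ∀ᶠ X : ℕ in atTop,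
      (((SQ X).filter fun n => u * mB n + v * mC n ≤ (u + v) / 2 * Real.log (Real.log X) +
        t * √(V * Real.log (Real.log X))).card : ℝ) / ((SQ X).card : ℝ) ≤
      (((SQ X).filter fun n => (u * mB n + v * mC n -
        (u + v) / 2 * Real.log (Real.log (Nat.sqrt X))) /
        (√V * √(Real.log (Real.log (Nat.sqrt X)))) ≤ t + δ).card : ℝ) / ((SQ X).card : ℝ) := by
    intro δ hδ
    filter_upwards [hthr δ hδ] with X ⟨h1, h2⟩
    refine div_le_div_of_nonneg_right ?_ (Nat.cast_nonneg _)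
    have h3 : (SQ X).filter (fun n => u * mB n + v * mC n ≤ (u + v) / 2 * Real.log (Real.log X) +
        t * √(V * Real.log (Real.log X))) ⊆ (SQ X).filter (fun n => (u * mB n + v * mC n -
        (u + v) / 2 * Real.log (Real.log (Nat.sqrt X))) /
        (√V * √(Real.log (Real.log (Nat.sqrt X)))) ≤ t + δ) := by
      intro n hn
      rw [mem_filter] at hn ⊢
      refine ⟨hn.1, ?_⟩
      have h4 : 0 < √V * √(Real.log (Real.log (Nat.sqrt X))) :=
        mul_pos hsV (Real.sqrt_pos.2 h1)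
      rw [div_le_iff₀ h4]
      have h5 := hn.2
      have h6 := (abs_le.1 h2).2
      linarith
    exact_mod_cast card_le_card h3
  have hlo : ∀ δ : ℝ, 0 < δ → ∀ᶠ X : ℕ in atTop,
      (((SQ X).filter fun n => (u * mB n + v * mC n -
        (u + v) / 2 * Real.log (Real.log (Nat.sqrt X))) /
        (√V * √(Real.log (Real.log (Nat.sqrt X)))) ≤ t - δ).card : ℝ) / ((SQ X).card : ℝ) ≤
      (((SQ X).filter fun n => u * mB n + v * mC n ≤ (u + v) / 2 * Real.log (Real.log X) +
        t * √(V * Real.log (Real.log X))).card : ℝ) / ((SQ X).card : ℝ) := by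
    intro δ hδ
    filter_upwards [hthr δ hδ] with X ⟨h1, h2⟩
    refine div_le_div_of_nonneg_right ?_ (Nat.cast_nonneg _)
    have h3 : (SQ X).filter (fun n => (u * mB n + v * mC n -
        (u + v) / 2 * Real.log (Real.log (Nat.sqrt X))) /
        (√V * √(Real.log (Real.log (Nat.sqrt X)))) ≤ t - δ) ⊆ (SQ X).filter (fun n =>
        u * mB n + v * mC n ≤ (u + v) / 2 * Real.log (Real.log X) +
        t * √(V * Real.log (Real.log X))) := by
      intro n hn
      rw [mem_filter] at hn ⊢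
      refine ⟨hn.1, ?_⟩
      have h4 : 0 < √V * √(Real.log (Real.log (Nat.sqrt X))) :=
        mul_pos hsV (Real.sqrt_pos.2 h1)
      have h5 := hn.2
      rw [div_le_iff₀ h4] at h5
      have h6 := (abs_le.1 h2).1
      linarith
    exact_mod_cast card_le_card h3
  rw [tendsto_order]
  constructor
  · intro a ha
    have h1 : ∀ᶠ x in 𝓝 t, a < (gaussianReal 0 1).real (Set.Iic x) :=
      gauss_cont.continuousAt.eventually (lt_mem_nhds ha)
    obtain ⟨r, hr, hball⟩ := Metric.eventually_nhds_iff.1 h1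
    have h2 : a < (gaussianReal 0 1).real (Set.Iic (t - r / 2)) := by
      apply hball
      rw [Real.dist_eq, abs_lt]
      constructor <;> linarith
    filter_upwards [(hlaw (t - r / 2)).eventually (lt_mem_nhds h2), hlo (r / 2) (by positivity)]
      with X h3 h4
    exact h3.trans_le h4
  · intro b hb
    have h1 : ∀ᶠ x in 𝓝 t, (gaussianReal 0 1).real (Set.Iic x) < b :=
      gauss_cont.continuousAt.eventually (gt_mem_nhds hb)
    obtain ⟨r, hr, hball⟩ := Metric.eventually_nhds_iff.1 h1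
    have h2 : (gaussianReal 0 1).real (Set.Iic (t + r / 2)) < b := by
      apply hball
      rw [Real.dist_eq, abs_lt]
      constructor <;> linarith
    filter_upwards [(hlaw (t + r / 2)).eventually (gt_mem_nhds h2), hup (r / 2) (by positivity)]
      with X h3 h4
    exact h4.trans_lt h3

end Pool.Agent.N160.SN
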