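import Pool.Agent.N160.SN.Main

/-!
# Project SN (helper818): the limit of the characteristic function
-/

set_option autoImplicit false

open scoped Classical

namespace Pool.Agent.N160.SN

open Finset Complex Filter Topology

open Pool.Agent.W262.RK (PS)
open Pool.Agent.R421.NR (yT yT_pow lt_yT loglog_yT yT_large big_ll)
open Pool.Agent.R421.EK (mem_PS' exp_I_lip)

/-- pointwise comparison -/
lemma pt_cmp (w : ℕ → ℝ) (c : ℝ) (hc : 1 ≤ c) (hwc : ∀ p, 2 * |w p| ≤ c) (μ C : ℝ) (z : ℕ)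
    (h1 : ∀ y : ℕ, z < y →
      |∑ p ∈ PS z y, w p * (1 / (p : ℝ)) - μ * Real.log (Real.log y)| ≤ C)
    (X n : ℕ) (hn : 1 ≤ n) (hnX : n ≤ X) (hX : 81 ^ 2 ≤ X) (hXz : z < yT (Nat.sqrt X)) :
    |(∑ p ∈ n.primeFactors, w p - μ * Real.log (Real.log (Nat.sqrt X))) -
      ∑ p ∈ PS z (yT (Nat.sqrt X)), w p * ((if p ∣ n then 1 else 0) - 1 / (p : ℝ))| ≤
      c * (z + 9) + C + 3 * |μ| := by
  have hs : 81 ≤ Nat.sqrt X := by
    rw [Nat.le_sqrt']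
    exact hX
  obtain ⟨l1, l2⟩ := loglog_yT hs
  obtain ⟨y, hy⟩ : ∃ y, y = yT (Nat.sqrt X) := ⟨_, rfl⟩
  have hlarge := card_large X n hn hnX (by omega)
  rw [← hy] at hXz l1 l2 hlarge ⊢
  obtain ⟨ℓ, hℓ⟩ : ∃ ℓ, ℓ = Real.log (Real.log (Nat.sqrt X)) := ⟨_, rfl⟩
  rw [← hℓ] at l1 l2 ⊢
  have e1 : ∑ p ∈ PS z y, w p * ((if p ∣ n then 1 else 0) - 1 / (p : ℝ)) =
      ∑ p ∈ n.primeFactors.filter (fun p => z < p ∧ p ≤ y), w p -
        ∑ p ∈ PS z y, w p * (1 / (p : ℝ)) := by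
    have e2 : n.primeFactors.filter (fun p => z < p ∧ p ≤ y) = (PS z y).filter fun p => p ∣ n := by
      ext p
      unfold PS
      rw [mem_filter, mem_filter, mem_filter, mem_Ioc, Nat.mem_primeFactors]
      constructor
      · rintro ⟨⟨a1, a2, a3⟩, a4, a5⟩
        exact ⟨⟨⟨a4, a5⟩, a1⟩, a2⟩
      · rintro ⟨⟨⟨a4, a5⟩, a1⟩, a2⟩
        exact ⟨⟨a1, a2, by omega⟩, a4, a5⟩
    rw [e2, sum_filter, ← sum_sub_distrib]
    refine sum_congr rfl fun p _ => ?_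
    split_ifs <;> ring
  have e3 := sum_filter_add_sum_filter_not n.primeFactors (fun p => z < p ∧ p ≤ y) w
  have hcard : ((n.primeFactors.filter (fun p => ¬ (z < p ∧ p ≤ y))).card : ℝ) ≤ z + 9 := by
    have hsub : n.primeFactors.filter (fun p => ¬ (z < p ∧ p ≤ y)) ⊆
        range (z + 1) ∪ n.primeFactors.filter (fun p => y < p) := by
      intro p hp
      rw [mem_filter] at hp
      rw [mem_union, mem_range, mem_filter]
      by_cases h : y < p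
      · exact Or.inr ⟨hp.1, h⟩
      · left
        have := hp.2
        omega
    have h2 := (card_le_card hsub).trans (card_union_le _ _)
    rw [card_range] at h2
    exact_mod_cast (by omega : (n.primeFactors.filter (fun p => ¬ (z < p ∧ p ≤ y))).card ≤ z + 9)
  have hrest : |∑ p ∈ n.primeFactors.filter (fun p => ¬ (z < p ∧ p ≤ y)), w p| ≤ c * (z + 9) := by
    refine (abs_sum_le_sum_abs _ _).trans ?_
    have h2 : ∑ p ∈ n.primeFactors.filter (fun p => ¬ (z < p ∧ p ≤ y)), |w p| ≤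
        ∑ p ∈ n.primeFactors.filter (fun p => ¬ (z < p ∧ p ≤ y)), c :=
      sum_le_sum fun p _ => by
        have := hwc p
        have := abs_nonneg (w p)
        linarith
    refine h2.trans ?_
    rw [sum_const, nsmul_eq_mul, mul_comm]
    exact mul_le_mul_of_nonneg_left hcard (by linarith)
  have h2 := h1 y hXz
  have h3 : |μ * Real.log (Real.log y) - μ * ℓ| ≤ 3 * |μ| := by
    rw [← mul_sub, abs_mul, mul_comm]
    refine mul_le_mul_of_nonneg_right ?_ (abs_nonneg _)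
    rw [abs_le]
    constructor <;> linarith
  rw [e1, ← e3]
  rw [abs_le] at *
  constructor <;> linarith [h2.1, h2.2, h3.1, h3.2, hrest.1, hrest.2]

/-- the limit of the characteristic function -/
theorem sq_cf (w : ℕ → ℝ) (c : ℝ) (hc : 1 ≤ c) (hwc : ∀ p, 2 * |w p| ≤ c) (μ v : ℝ) (hv : 0 ≤ v)
    (hw1 : ∀ z : ℕ, 10 ≤ z → ∃ C : ℝ, 0 ≤ C ∧ ∀ y : ℕ, z < y →
      |∑ p ∈ PS z y, w p * (1 / (p : ℝ)) - μ * Real.log (Real.log y)| ≤ C)
    (hw2 : ∀ z : ℕ, 10 ≤ z → ∃ C : ℝ, 0 ≤ C ∧ ∀ y : ℕ, z < y →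
      |∑ p ∈ PS z y, w p ^ 2 * (1 / (p : ℝ)) - v * ∑ p ∈ PS z y, 1 / (p : ℝ)| ≤ C) :
    Tendsto (fun X : ℕ => (∑ n ∈ SQ X, cexp ((((∑ p ∈ n.primeFactors, w p -
      μ * Real.log (Real.log (Nat.sqrt X))) / √(Real.log (Real.log (Nat.sqrt X))) : ℝ) : ℂ) * I)) /
        ((SQ X).card : ℂ)) atTop (𝓝 ((Real.exp (-(v / 2)) : ℝ) : ℂ)) := by
  rw [Metric.tendsto_atTop]
  intro ε hε
  obtain ⟨z, X0, hz, hX0⟩ := sq_sum w c hc hwc v hv hw2 (ε / 256) (by positivity)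
  obtain ⟨C, hC0, hC⟩ := hw1 z hz
  obtain ⟨X1, hX1⟩ := SQ_ge'
  obtain ⟨E, hE⟩ : ∃ E : ℝ, E = c * (z + 9) + C + 3 * |μ| := ⟨_, rfl⟩
  have hE0 : 0 ≤ E := by
    rw [hE]
    positivity
  obtain ⟨X2, hX2⟩ := big_ll ((4 * E / ε + 1) ^ 2)
  refine ⟨X0 + X1 + (X2 + (z + 1) ^ 4 + 81) ^ 2, fun X hX => ?_⟩
  have hs : X2 + (z + 1) ^ 4 + 81 ≤ Nat.sqrt X := by
    rw [Nat.le_sqrt']
    omega
  have hX81 : 81 ^ 2 ≤ X := by
    rw [← Nat.le_sqrt']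
    omega
  have hXpos : (0 : ℝ) < X := by
    have : 0 < X := by omega
    exact_mod_cast this
  have h1 := hX0 X (by omega)
  have h2 := hX1 X (by omega)
  have h3 := hX2 (Nat.sqrt X) (by omega)
  have hXz : z < yT (Nat.sqrt X) := yT_large z (by omega)
  obtain ⟨ℓ, hℓ⟩ : ∃ ℓ, ℓ = Real.log (Real.log (Nat.sqrt X)) := ⟨_, rfl⟩
  rw [← hℓ] at h3 ⊢
  have h4 : 4 * E / ε + 1 ≤ √ℓ := Real.le_sqrt_of_sq_le h3
  have h40 : 0 ≤ 4 * E / ε := by positivity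
  have hsl : 0 < √ℓ := by linarith
  have h5 : E / √ℓ ≤ ε / 4 := by
    rw [div_le_iff₀ hsl]
    have h6 : 4 * E / ε ≤ √ℓ := by linarith
    rw [div_le_iff₀ hε] at h6
    linarith
  have hcard : (0 : ℝ) < (SQ X).card := lt_of_lt_of_le (by positivity) h2
  have hcardC : ((SQ X).card : ℂ) ≠ 0 := by exact_mod_cast hcard.ne'
  obtain ⟨Vf, hVf⟩ : ∃ Vf : ℕ → ℝ, Vf = fun n => (∑ p ∈ n.primeFactors, w p - μ * ℓ) / √ℓ :=
    ⟨_, rfl⟩
  have e1 : (∑ n ∈ SQ X, cexp ((((∑ p ∈ n.primeFactors, w p - μ * ℓ) / √ℓ : ℝ) : ℂ) * I)) /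
        ((SQ X).card : ℂ) - ((Real.exp (-(v / 2)) : ℝ) : ℂ) =
      (∑ n ∈ SQ X, Gf w v z (Nat.sqrt X) n + ∑ n ∈ SQ X, (cexp ((Vf n : ℂ) * I) -
        cexp ((Af w z (Nat.sqrt X) n : ℂ) * I))) / ((SQ X).card : ℂ) := by
    rw [← sum_add_distrib]
    have e2 : ∀ n ∈ SQ X, Gf w v z (Nat.sqrt X) n + (cexp ((Vf n : ℂ) * I) -
        cexp ((Af w z (Nat.sqrt X) n : ℂ) * I)) =
        cexp ((((∑ p ∈ n.primeFactors, w p - μ * ℓ) / √ℓ : ℝ) : ℂ) * I) -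
          ((Real.exp (-(v / 2)) : ℝ) : ℂ) := by
      intro n _
      rw [hVf]
      unfold Gf
      ring
    rw [sum_congr rfl e2, sum_sub_distrib, sum_const, nsmul_eq_mul, sub_div,
      mul_div_cancel_left₀ _ hcardC]
  rw [dist_eq_norm, e1, norm_div, Complex.norm_natCast, div_lt_iff₀ hcard]
  have h6 : ‖∑ n ∈ SQ X, (cexp ((Vf n : ℂ) * I) - cexp ((Af w z (Nat.sqrt X) n : ℂ) * I))‖ ≤
      (SQ X).card * (ε / 4) := by
    refine (norm_sum_le _ _).trans ?_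
    rw [← nsmul_eq_mul, ← sum_const]
    refine sum_le_sum fun n hn => ?_
    refine (exp_I_lip _ _).trans (le_trans ?_ h5)
    have hn' := hn
    unfold SQ at hn'
    rw [mem_filter, mem_Icc] at hn'
    have h7 := pt_cmp w c hc hwc μ C z hC X n hn'.1.1 hn'.1.2 hX81 hXz
    rw [← hℓ, ← hE] at h7
    have e2 : Vf n - Af w z (Nat.sqrt X) n = ((∑ p ∈ n.primeFactors, w p - μ * ℓ) -
      ∑ p ∈ PS z (yT (Nat.sqrt X)), w p * ((if p ∣ n then 1 else 0) - 1 / (p : ℝ))) / √ℓ := by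
      rw [hVf]
      unfold Af
      rw [← hℓ, sub_div]
    rw [e2, abs_div, abs_of_pos hsl]
    exact div_le_div_of_nonneg_right h7 hsl.le
  calc ‖_ + _‖ ≤ ε / 256 * X + (SQ X).card * (ε / 4) := (norm_add_le _ _).trans (add_le_add h1 h6)
    _ < ε * (SQ X).card := by nlinarith

end Pool.Agent.N160.SN
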