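import Mathlib

/-!
# Project SN (helper818): squarefree integers `11` modulo `24`
-/

set_option autoImplicit false

open scoped Classical

namespace Pool.Agent.N160.SN

open Finset

/-- the squarefree integers of the class -/
noncomputable def SQ (X : ℕ) : Finset ℕ := (Icc 1 X).filter fun n => Squarefree n ∧ n % 24 = 11

/-- no square of a prime at most `D` -/
noncomputable def TD (D X : ℕ) : Finset ℕ :=
  (Icc 1 X).filter fun n => n % 24 = 11 ∧ ∀ p : ℕ, p.Prime → p ≤ D → ¬ p ^ 2 ∣ n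

lemma SQ_sub_TD (D X : ℕ) : SQ X ⊆ TD D X := by
  intro n hn
  unfold SQ at hn
  rw [mem_filter] at hn
  unfold TD
  rw [mem_filter]
  refine ⟨hn.1, hn.2.2, fun p hp _ hd => ?_⟩
  rw [pow_two] at hd
  exact Nat.squarefree_iff_prime_squarefree.1 hn.2.1 p hp hd

lemma card_sq_mul (X k : ℕ) : (((Icc 1 X).filter fun n => k ^ 2 ∣ n).card : ℝ) ≤
    X * ((k : ℝ) ^ 2)⁻¹ := by
  have e : (Icc 1 X).filter (fun n => k ^ 2 ∣ n) = (Ioc 0 X).filter (fun n => k ^ 2 ∣ n) := by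
    ext n
    simp only [mem_filter, mem_Icc, mem_Ioc]
    constructor
    · rintro ⟨⟨h1, h2⟩, h3⟩
      exact ⟨⟨by omega, h2⟩, h3⟩
    · rintro ⟨⟨h1, h2⟩, h3⟩
      exact ⟨⟨by omega, h2⟩, h3⟩
  rw [e, Nat.Ioc_filter_dvd_card_eq_div]
  refine Nat.cast_div_le.trans (le_of_eq ?_)
  push_cast
  rw [div_eq_mul_inv]

lemma card_TD_sdiff (D X : ℕ) (hD : 1 ≤ D) : (((TD D X) \ SQ X).card : ℝ) ≤ X / D := by
  have hsub : (TD D X) \ SQ X ⊆ (Ioc D X).biUnion fun k => (Icc 1 X).filter fun n => k ^ 2 ∣ n := by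
    intro n hn
    rw [mem_sdiff] at hn
    obtain ⟨h1, h2⟩ := hn
    unfold TD at h1
    unfold SQ at h2
    rw [mem_filter] at h1 h2
    obtain ⟨h3, h4, h5⟩ := h1
    have h6 : ¬ Squarefree n := fun h => h2 ⟨h3, h, h4⟩
    rw [Nat.squarefree_iff_prime_squarefree] at h6
    push Not at h6
    obtain ⟨p, hp, hd⟩ := h6
    rw [← pow_two] at hd
    have h7 : D < p := by
      by_contra hcon
      exact h5 p hp (by omega) hd
    rw [mem_Icc] at h3
    have h8 : p ≤ X := (Nat.le_self_pow two_ne_zero p).trans ((Nat.le_of_dvd (by omega) hd).trans h3.2)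
    rw [mem_biUnion]
    exact ⟨p, mem_Ioc.2 ⟨h7, h8⟩, mem_filter.2 ⟨mem_Icc.2 h3, hd⟩⟩
  have h1 : (((TD D X) \ SQ X).card : ℝ) ≤
      ∑ k ∈ Ioc D X, (((Icc 1 X).filter fun n => k ^ 2 ∣ n).card : ℝ) := by
    exact_mod_cast (card_le_card hsub).trans card_biUnion_le
  refine h1.trans ((sum_le_sum fun k _ => card_sq_mul X k).trans ?_)
  rw [← mul_sum]
  rcases le_total D X with hDX | hDX
  · have h2 := sum_Ioc_inv_sq_le_sub (α := ℝ) (k := D) (n := X) (by omega) hDX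
    have h3 : (0 : ℝ) ≤ (X : ℝ)⁻¹ := by positivity
    rw [div_eq_mul_inv]
    exact mul_le_mul_of_nonneg_left (by linarith) (Nat.cast_nonneg X)
  · rw [Ioc_eq_empty_of_le hDX, sum_empty, mul_zero]
    positivity

lemma card_cls_le (Y : ℕ) : (((Icc 1 Y).filter fun n => n % 24 = 11).card : ℝ) ≤ (Y : ℝ) / 24 + 1 := by
  have hsub : (Icc 1 Y).filter (fun n => n % 24 = 11) ⊆ (range ((Y + 13) / 24)).image
      fun j => 24 * j + 11 := by
    intro n hn
    rw [mem_filter, mem_Icc] at hn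
    rw [mem_image]
    refine ⟨n / 24, ?_, by omega⟩
    rw [mem_range]
    omega
  have h1 := (card_le_card hsub).trans card_image_le
  rw [card_range] at h1
  have h2 : (((Icc 1 Y).filter fun n => n % 24 = 11).card : ℝ) ≤ ((Y + 13) / 24 : ℕ) := by
    exact_mod_cast h1
  refine h2.trans (Nat.cast_div_le.trans ?_)
  push_cast
  linarith

lemma card_cls_ge (Y : ℕ) : (Y : ℝ) / 24 - 1 ≤ (((Icc 1 Y).filter fun n => n % 24 = 11).card : ℝ) := by
  have hsub : (range ((Y + 13) / 24)).image (fun j => 24 * j + 11) ⊆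
      (Icc 1 Y).filter (fun n => n % 24 = 11) := by
    intro n hn
    rw [mem_image] at hn
    obtain ⟨j, hj, rfl⟩ := hn
    rw [mem_range] at hj
    rw [mem_filter, mem_Icc]
    omega
  have h1 := card_le_card hsub
  rw [card_image_of_injective _ (fun a b h => by
    have h' : 24 * a + 11 = 24 * b + 11 := h
    omega), card_range] at h1
  have h3 : Y ≤ 24 * ((Y + 13) / 24) + 24 := by omega
  have h4 : (Y : ℝ) ≤ 24 * (((Y + 13) / 24 : ℕ) : ℝ) + 24 := by exact_mod_cast h3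
  have h5 : (((Y + 13) / 24 : ℕ) : ℝ) ≤ (((Icc 1 Y).filter fun n => n % 24 = 11).card : ℝ) := by
    exact_mod_cast h1
  linarith

lemma sq_mod {k : ℕ} (h2 : k % 2 = 1) (h3 : k % 3 ≠ 0) : k ^ 2 % 24 = 1 := by
  rw [Nat.pow_mod]
  have h1 : k % 24 < 24 := Nat.mod_lt _ (by norm_num)
  have h4 : (k % 24) % 2 = 1 := by omega
  have h5 : (k % 24) % 3 ≠ 0 := by omega
  generalize k % 24 = r at h1 h4 h5
  interval_cases r <;> first | rfl | omega

/-- the class contains a positive proportion of squarefree integers -/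
lemma SQ_ge (X : ℕ) : (X : ℝ) / 32 - Nat.sqrt X - 1 ≤ ((SQ X).card : ℝ) := by
  have hsub : (Icc 1 X).filter (fun n => n % 24 = 11) ⊆ SQ X ∪ (Ioc 4 (Nat.sqrt X)).biUnion fun k =>
      ((Icc 1 (X / k ^ 2)).filter fun n => n % 24 = 11).image fun m => k ^ 2 * m := by
    intro n hn
    rw [mem_filter, mem_Icc] at hn
    obtain ⟨⟨h1, h2⟩, h3⟩ := hn
    rw [mem_union]
    by_cases hs : Squarefree n
    · left
      unfold SQ
      rw [mem_filter, mem_Icc]
      exact ⟨⟨h1, h2⟩, hs, h3⟩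
    · right
      rw [Nat.squarefree_iff_prime_squarefree] at hs
      push Not at hs
      obtain ⟨p, hp, hd⟩ := hs
      rw [← pow_two] at hd
      obtain ⟨m, rfl⟩ := hd
      have hp2 : p % 2 = 1 := by
        rcases hp.eq_two_or_odd with h | h
        · subst h
          omega
        · exact h
      have hp3 : p % 3 ≠ 0 := by
        intro h
        have h4 : 3 ∣ p := Nat.dvd_of_mod_eq_zero h
        have h5 := (Nat.prime_dvd_prime_iff_eq Nat.prime_three hp).1 h4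
        subst h5
        omega
      have hp5 : 4 < p := by
        have := hp.two_le
        rcases Nat.lt_or_ge 4 p with h | h
        · exact h
        · interval_cases p <;> omega
      have hsq := sq_mod hp2 hp3
      have hm : m % 24 = 11 := by
        rw [Nat.mul_mod, hsq, one_mul, Nat.mod_mod] at h3
        exact h3
      have hm1 : 1 ≤ m := by omega
      rw [mem_biUnion]
      refine ⟨p, ?_, ?_⟩
      · rw [mem_Ioc]
        refine ⟨hp5, ?_⟩
        rw [Nat.le_sqrt', ]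
        exact (Nat.le_mul_of_pos_right _ hm1).trans h2
      · rw [mem_image]
        refine ⟨m, ?_, rfl⟩
        rw [mem_filter, mem_Icc]
        refine ⟨⟨hm1, ?_⟩, hm⟩
        rw [Nat.le_div_iff_mul_le (by positivity)]
        rw [mul_comm]
        exact h2
  have h1 := (card_le_card hsub).trans (card_union_le _ _)
  have h2 : (((Icc 1 X).filter fun n => n % 24 = 11).card : ℝ) ≤ (SQ X).card +
      ∑ k ∈ Ioc 4 (Nat.sqrt X), (((Icc 1 (X / k ^ 2)).filter fun n => n % 24 = 11).card : ℝ) := by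
    have h3 := card_biUnion_le (s := Ioc 4 (Nat.sqrt X)) (t := fun k =>
      ((Icc 1 (X / k ^ 2)).filter fun n => n % 24 = 11).image fun m => k ^ 2 * m)
    have h4 : ∑ k ∈ Ioc 4 (Nat.sqrt X), (((Icc 1 (X / k ^ 2)).filter fun n => n % 24 = 11).image
        fun m => k ^ 2 * m).card ≤
        ∑ k ∈ Ioc 4 (Nat.sqrt X), ((Icc 1 (X / k ^ 2)).filter fun n => n % 24 = 11).card :=
      sum_le_sum fun k _ => card_image_le
    have h5 := h1.trans (Nat.add_le_add_left (h3.trans h4) _)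
    exact_mod_cast h5
  have h3 : ∑ k ∈ Ioc 4 (Nat.sqrt X), (((Icc 1 (X / k ^ 2)).filter fun n => n % 24 = 11).card : ℝ) ≤
      (X : ℝ) / 96 + Nat.sqrt X := by
    have h4 : ∀ k ∈ Ioc 4 (Nat.sqrt X),
        (((Icc 1 (X / k ^ 2)).filter fun n => n % 24 = 11).card : ℝ) ≤
        (X : ℝ) / 24 * ((k : ℝ) ^ 2)⁻¹ + 1 := by
      intro k _
      refine (card_cls_le _).trans ?_
      have h5 : ((X / k ^ 2 : ℕ) : ℝ) ≤ X / (k : ℝ) ^ 2 := by
        refine Nat.cast_div_le.trans (le_of_eq ?_)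
        push_cast
        rfl
      have h6 : (X : ℝ) / 24 * ((k : ℝ) ^ 2)⁻¹ = X / (k : ℝ) ^ 2 / 24 := by ring
      rw [h6]
      linarith
    refine (sum_le_sum h4).trans ?_
    rw [sum_add_distrib, ← mul_sum, sum_const, nsmul_eq_mul, mul_one, Nat.card_Ioc]
    rcases le_total 4 (Nat.sqrt X) with h5 | h5
    · have h6 := sum_Ioc_inv_sq_le_sub (α := ℝ) (k := 4) (n := Nat.sqrt X) (by norm_num) h5
      have h7 : (0 : ℝ) ≤ ((Nat.sqrt X : ℕ) : ℝ)⁻¹ := by positivity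
      have h8 : ((4 : ℕ) : ℝ)⁻¹ = 1 / 4 := by norm_num
      rw [h8] at h6
      have h9 : (X : ℝ) / 24 * ∑ k ∈ Ioc 4 (Nat.sqrt X), ((k : ℝ) ^ 2)⁻¹ ≤ (X : ℝ) / 24 * (1 / 4) :=
        mul_le_mul_of_nonneg_left (by linarith) (by positivity)
      have h10 : ((Nat.sqrt X - 4 : ℕ) : ℝ) ≤ Nat.sqrt X := by exact_mod_cast Nat.sub_le _ _
      linarith
    · rw [Ioc_eq_empty_of_le h5, sum_empty]
      have h10 : ((Nat.sqrt X - 4 : ℕ) : ℝ) ≤ Nat.sqrt X := by exact_mod_cast Nat.sub_le _ _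
      have h11 : (0 : ℝ) ≤ (X : ℝ) / 96 := by positivity
      linarith
  have h4 := card_cls_ge X
  linarith

lemma SQ_ge' : ∃ X₀ : ℕ, ∀ X : ℕ, X₀ ≤ X → (X : ℝ) / 64 ≤ ((SQ X).card : ℝ) := by
  refine ⟨200 ^ 2, fun X hX => ?_⟩
  have h1 := SQ_ge X
  have h2 : Nat.sqrt X ^ 2 ≤ X := Nat.sqrt_le' X
  have h3 : 200 ≤ Nat.sqrt X := by
    rw [Nat.le_sqrt']
    exact hX
  have h4 : (200 : ℝ) ≤ Nat.sqrt X := by exact_mod_cast h3
  have h5 : ((Nat.sqrt X : ℕ) : ℝ) ^ 2 ≤ X := by exact_mod_cast h2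
  nlinarith

end Pool.Agent.N160.SN
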