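import Pool.Agent.N160.SN.Cf
import Pool.Agent.N160.SN.Sq

/-!
# Project SN (helper818): the characteristic function on the squarefree integers `11` modulo `24`
-/

set_option autoImplicit false

open scoped Classical

namespace Pool.Agent.N160.SN

open Finset Complex Filter Topology

open Pool.Agent.W262.RK (PS)
open Pool.Agent.R421.NR (yT yT_pow lt_yT loglog_yT yT_large big_ll)
open Pool.Agent.R421.EK (mem_PS' exp_I_lip)

/-- the truncated centred function -/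
noncomputable def Af (w : ℕ → ℝ) (z T n : ℕ) : ℝ :=
  (∑ p ∈ PS z (yT T), w p * ((if p ∣ n then 1 else 0) - 1 / (p : ℝ))) / √(Real.log (Real.log T))

/-- the test function -/
noncomputable def Gf (w : ℕ → ℝ) (v : ℝ) (z T n : ℕ) : ℂ :=
  cexp ((Af w z T n : ℂ) * I) - ((Real.exp (-(v / 2)) : ℝ) : ℂ)

lemma Gf_le (w : ℕ → ℝ) (v : ℝ) (hv : 0 ≤ v) (z T n : ℕ) : ‖Gf w v z T n‖ ≤ 2 := by
  unfold Gf
  refine (norm_sub_le _ _).trans ?_
  rw [Complex.norm_exp_ofReal_mul_I, Complex.norm_real, Real.norm_eq_abs,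
    abs_of_pos (Real.exp_pos _)]
  have : Real.exp (-(v / 2)) ≤ 1 := Real.exp_le_one_iff.2 (by linarith)
  linarith

lemma cls_eq (M r X : ℕ) (hM : 1 ≤ M) (hr : r < M) (hr1 : 1 ≤ r) (hX : M ≤ X) :
    (Icc 1 X).filter (fun n => n % M = r) = (range ((X - r) / M + 1)).image fun j => M * j + r := by
  ext n
  rw [mem_filter, mem_Icc, mem_image]
  constructor
  · rintro ⟨⟨h1, h2⟩, h3⟩
    refine ⟨n / M, ?_, ?_⟩
    · rw [mem_range, Nat.lt_succ_iff, Nat.le_div_iff_mul_le (by omega)]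
      have := Nat.div_add_mod n M
      rw [mul_comm]
      omega
    · rw [← h3]
      exact Nat.div_add_mod n M
  · rintro ⟨j, hj, rfl⟩
    rw [mem_range, Nat.lt_succ_iff, Nat.le_div_iff_mul_le (by omega)] at hj
    rw [mul_comm] at hj
    refine ⟨⟨by omega, by omega⟩, ?_⟩
    rw [Nat.mul_add_mod, Nat.mod_eq_of_lt hr]

/-- the sum over a class -/
lemma cls_sum (w : ℕ → ℝ) (c : ℝ) (hc : 1 ≤ c) (hwc : ∀ p, 2 * |w p| ≤ c) (v C3 : ℝ) (hv : 0 ≤ v)
    (hC3 : 0 ≤ C3) (z : ℕ) (hz : 10 ≤ z) (hwC : ∀ y : ℕ, z < y →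
      |∑ p ∈ PS z y, w p ^ 2 * (1 / (p : ℝ)) - v * ∑ p ∈ PS z y, 1 / (p : ℝ)| ≤ C3)
    (M r : ℕ) (hM : 1 ≤ M) (hMz : M ≤ z) (hr : r < M) (hr1 : 1 ≤ r) (ε : ℝ) (hε : 0 < ε) :
    ∃ X0 : ℕ, ∀ X : ℕ, X0 ≤ X →
      ‖∑ n ∈ (Icc 1 X).filter (fun n => n % M = r), Gf w v z (Nat.sqrt X) n‖ ≤ ε * X / M := by
  obtain ⟨T0, hT0⟩ := ap_cf w c hc hwc v C3 hv hC3 z hz hwC M r hM hMz (ε / 2) (by positivity)
  refine ⟨(T0 + M) ^ 2, fun X hX => ?_⟩
  have hs : T0 + M ≤ Nat.sqrt X := by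
    rw [Nat.le_sqrt']
    exact hX
  have hXs : Nat.sqrt X * Nat.sqrt X ≤ X := Nat.sqrt_le X
  have hMX : M ≤ X := by nlinarith
  rw [cls_eq M r X hM hr hr1 hMX, sum_image (fun a _ b _ h => by
    have h' : M * a + r = M * b + r := h
    have h'' : M * a = M * b := by omega
    exact Nat.eq_of_mul_eq_mul_left (by omega) h'')]
  obtain ⟨K, hK⟩ : ∃ K, K = (X - r) / M + 1 := ⟨_, rfl⟩
  rw [← hK]
  have hK1 : Nat.sqrt X ≤ K := by
    rw [hK]
    have h1 : Nat.sqrt X ≤ X / M := by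
      rw [Nat.le_div_iff_mul_le (by omega)]
      calc Nat.sqrt X * M ≤ Nat.sqrt X * Nat.sqrt X := Nat.mul_le_mul_left _ (by omega)
        _ ≤ X := hXs
    have h2 : X / M ≤ (X - r) / M + 1 := by
      rw [← Nat.add_div_right _ (by omega)]
      exact Nat.div_le_div_right (by omega)
    omega
  have h := hT0 (Nat.sqrt X) (by omega) K hK1
  have hK0 : 0 < K := by omega
  have hKr : (0 : ℝ) < K := by exact_mod_cast hK0
  have hKc : (K : ℂ) ≠ 0 := by exact_mod_cast hK0.ne'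
  have e : ∑ j ∈ range K, Gf w v z (Nat.sqrt X) (M * j + r) =
      K * ((∑ j ∈ range K, cexp (((((∑ p ∈ PS z (yT (Nat.sqrt X)),
        w p * ((if p ∣ M * j + r then 1 else 0) - 1 / (p : ℝ))) /
          √(Real.log (Real.log (Nat.sqrt X))) : ℝ) : ℂ) * I))) / (K : ℂ) -
            ((Real.exp (-(v / 2)) : ℝ) : ℂ)) := by
    rw [mul_sub, mul_div_cancel₀ _ hKc]
    unfold Gf Af
    rw [sum_sub_distrib, sum_const, card_range, nsmul_eq_mul]
  rw [e, norm_mul, Complex.norm_natCast]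
  have hKX : (K : ℝ) ≤ 2 * X / M := by
    have h1 : K ≤ X / M + 1 := by
      rw [hK]
      exact Nat.add_le_add_right (Nat.div_le_div_right (by omega)) 1
    have h2 : 1 ≤ X / M := by
      rw [Nat.le_div_iff_mul_le (by omega)]
      omega
    have h3 : (K : ℝ) ≤ 2 * ((X / M : ℕ) : ℝ) := by exact_mod_cast (by omega : K ≤ 2 * (X / M))
    refine h3.trans ?_
    rw [mul_div_assoc]
    exact mul_le_mul_of_nonneg_left Nat.cast_div_le (by norm_num)
  calc (K : ℝ) * _ ≤ (2 * X / M) * (ε / 2) := mul_le_mul hKX h (norm_nonneg _) (by positivity)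
    _ = _ := by ring

/-- the sum over the squarefree integers -/
lemma sq_sum (w : ℕ → ℝ) (c : ℝ) (hc : 1 ≤ c) (hwc : ∀ p, 2 * |w p| ≤ c) (v : ℝ) (hv : 0 ≤ v)
    (hw2 : ∀ z : ℕ, 10 ≤ z → ∃ C : ℝ, 0 ≤ C ∧ ∀ y : ℕ, z < y →
      |∑ p ∈ PS z y, w p ^ 2 * (1 / (p : ℝ)) - v * ∑ p ∈ PS z y, 1 / (p : ℝ)| ≤ C)
    (ε : ℝ) (hε : 0 < ε) : ∃ z X0 : ℕ, 10 ≤ z ∧ ∀ X : ℕ, X0 ≤ X →
      ‖∑ n ∈ SQ X, Gf w v z (Nat.sqrt X) n‖ ≤ ε * X := by
  obtain ⟨D, hD⟩ := exists_nat_gt (4 / ε + 1)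
  have h4 : 0 < 4 / ε := by positivity
  have hD0 : (0 : ℝ) < D := by linarith
  have hD1 : 1 ≤ D := by exact_mod_cast hD0
  obtain ⟨M, hM⟩ : ∃ M, M = 24 * D.factorial ^ 2 := ⟨_, rfl⟩
  have hM24 : 24 ≤ M := by
    rw [hM]
    exact Nat.le_mul_of_pos_right _ (pow_pos D.factorial_pos 2)
  obtain ⟨C3, hC30, hC3⟩ := hw2 M (by omega)
  have hcl : ∀ r : ℕ, ∃ X0 : ℕ, (r < M ∧ 1 ≤ r) → ∀ X : ℕ, X0 ≤ X →
      ‖∑ n ∈ (Icc 1 X).filter (fun n => n % M = r), Gf w v M (Nat.sqrt X) n‖ ≤ ε / 2 * X / M := by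
    intro r
    by_cases hr : r < M ∧ 1 ≤ r
    · obtain ⟨X0, h⟩ := cls_sum w c hc hwc v C3 hv hC30 M (by omega) hC3 M r (by omega) le_rfl
        hr.1 hr.2 (ε / 2) (by positivity)
      exact ⟨X0, fun _ => h⟩
    · exact ⟨0, fun h => absurd h hr⟩
  choose X0 hX0 using hcl
  refine ⟨M, (range M).sup X0, by omega, fun X hX => ?_⟩
  have hTD : ‖∑ n ∈ TD D X, Gf w v M (Nat.sqrt X) n‖ ≤ ε / 2 * X := by
    have hmap : ∀ n ∈ TD D X, n % M ∈ range M := fun n _ => mem_range.2 (Nat.mod_lt _ (by omega))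
    rw [← sum_fiberwise_of_maps_to hmap]
    refine (norm_sum_le _ _).trans ?_
    have h1 : ∀ r ∈ range M, ‖∑ n ∈ (TD D X).filter (fun n => n % M = r),
        Gf w v M (Nat.sqrt X) n‖ ≤ ε / 2 * X / M := by
      intro r hr
      rw [mem_range] at hr
      have hmod : ∀ n : ℕ, n % M = r → (n % 24 = 11 ↔ r % 24 = 11) := by
        intro n hn
        rw [← hn, hM, Nat.mod_mul_right_mod]
      have hdiv : ∀ n : ℕ, n % M = r → ∀ p : ℕ, p.Prime → p ≤ D → (p ^ 2 ∣ n ↔ p ^ 2 ∣ r) := by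
        intro n hn p hp hpD
        have h2 : p ^ 2 ∣ M := by
          rw [hM]
          exact (pow_dvd_pow_of_dvd (Nat.dvd_factorial hp.pos hpD) 2).mul_left _
        rw [← hn, Nat.dvd_mod_iff h2]
      by_cases hR : r % 24 = 11 ∧ ∀ p : ℕ, p.Prime → p ≤ D → ¬ p ^ 2 ∣ r
      · have e : (TD D X).filter (fun n => n % M = r) = (Icc 1 X).filter (fun n => n % M = r) := by
          unfold TD
          ext n
          simp only [mem_filter]
          constructor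
          · rintro ⟨⟨a1, a2⟩, a3⟩
            exact ⟨a1, a3⟩
          · rintro ⟨a1, a3⟩
            exact ⟨⟨a1, (hmod n a3).2 hR.1, fun p hp hpD hd =>
              hR.2 p hp hpD ((hdiv n a3 p hp hpD).1 hd)⟩, a3⟩
        rw [e]
        exact hX0 r ⟨hr, by omega⟩ X ((le_sup (mem_range.2 hr)).trans hX)
      · have e : (TD D X).filter (fun n => n % M = r) = ∅ := by
          rw [filter_eq_empty_iff]
          intro n hn h
          apply hR
          unfold TD at hn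
          rw [mem_filter] at hn
          exact ⟨(hmod n h).1 hn.2.1, fun p hp hpD hd =>
            hn.2.2 p hp hpD ((hdiv n h p hp hpD).2 hd)⟩
        rw [e, sum_empty, norm_zero]
        positivity
    refine (sum_le_sum h1).trans (le_of_eq ?_)
    rw [sum_const, card_range, nsmul_eq_mul]
    have : (M : ℝ) ≠ 0 := by exact_mod_cast (by omega : M ≠ 0)
    field_simp
  have hdiff : ‖∑ n ∈ TD D X \ SQ X, Gf w v M (Nat.sqrt X) n‖ ≤ ε / 2 * X := by
    refine (norm_sum_le _ _).trans ?_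
    refine (sum_le_sum fun n _ => Gf_le w v hv M (Nat.sqrt X) n).trans ?_
    rw [sum_const, nsmul_eq_mul]
    have h1 := card_TD_sdiff D X hD1
    have h2 : (X : ℝ) / D ≤ ε / 4 * X := by
      rw [div_le_iff₀ hD0]
      have h3 : 1 ≤ ε / 4 * D := by
        have h5 : 4 / ε ≤ D := by linarith
        rw [div_le_iff₀ hε] at h5
        linarith
      have h6 : (0 : ℝ) ≤ X := Nat.cast_nonneg X
      nlinarith
    linarith
  have e : ∑ n ∈ SQ X, Gf w v M (Nat.sqrt X) n = ∑ n ∈ TD D X, Gf w v M (Nat.sqrt X) n -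
      ∑ n ∈ TD D X \ SQ X, Gf w v M (Nat.sqrt X) n := by
    rw [← sum_sdiff (SQ_sub_TD D X)]
    ring
  rw [e]
  refine (norm_sub_le _ _).trans ?_
  linarith

/-- few large prime factors -/
lemma card_large (X n : ℕ) (hn : 1 ≤ n) (hnX : n ≤ X) (hX : 2 ≤ X) :
    (n.primeFactors.filter fun p => yT (Nat.sqrt X) < p).card ≤ 8 := by
  obtain ⟨B, hB⟩ : ∃ B, B = n.primeFactors.filter fun p => yT (Nat.sqrt X) < p := ⟨_, rfl⟩
  rw [← hB]
  by_contra hcon
  push Not at hcon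
  obtain ⟨y, hy⟩ : ∃ y, y = yT (Nat.sqrt X) := ⟨_, rfl⟩
  rw [← hy] at hB
  have h1 : Nat.sqrt X < (y + 1) ^ 4 := by
    rw [hy]
    exact lt_yT _
  have h2 : X < (Nat.sqrt X + 1) ^ 2 := Nat.lt_succ_sqrt' X
  have h3 : (Nat.sqrt X + 1) ^ 2 ≤ ((y + 1) ^ 4) ^ 2 := Nat.pow_le_pow_left h1 2
  rw [← pow_mul] at h3
  have h4 : (y + 1) ^ B.card ≤ ∏ p ∈ B, p := by
    rw [← prod_const]
    refine prod_le_prod' fun p hp => ?_
    rw [hB, mem_filter] at hp
    omega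
  have h5 : ∏ p ∈ B, p ≤ n := by
    refine Nat.le_of_dvd (by omega) ?_
    refine (prod_dvd_prod_of_subset _ _ _ ?_).trans (Nat.prod_primeFactors_dvd n)
    rw [hB]
    exact filter_subset _ _
  have h6 : (y + 1) ^ (4 * 2) ≤ (y + 1) ^ B.card := Nat.pow_le_pow_right (by omega) (by omega)
  omega

end Pool.Agent.N160.SN
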