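import Pool.Agent.N659.HB.Stm10
import Pool.Agent.N163.HB.Gapa

/-!
# SN/SDGU: the gap at strong disorder, Gaussian law (project SN of helper659)

After the proofs of helper441 (`Pool.Agent.N441.SD.SDG`, uniform law) and helper346
(`Pool.Agent.N346.KG.Gaph`, change of the law).  Author: helper160.
-/

set_option autoImplicit false

namespace Pool.Agent.N160.SN.SDGU

open MeasureTheory Filter Pool.Agent.W792.LL Pool.Agent.W792.WA Pool.Agent.N659.HB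
open scoped Topology ENNReal

noncomputable section

/-- the level function -/
def qf (ρ : Measure ℝ) (t : ℂ) : ℂ := 1 / bet ρ t - t

theorem small_pow {p a b : ℝ} (hp : 0 < p) (ha : 0 ≤ a) (hb : 0 < b) :
    ∃ g : ℝ, 0 < g ∧ ∀ x : ℝ, 0 ≤ x → x ≤ g → a * x ^ p ≤ b := by
  have h1 : 0 < b / (a + 1) := by positivity
  refine ⟨(b / (a + 1)) ^ (1 / p), Real.rpow_pos_of_pos h1 _, fun x hx hxg => ?_⟩
  have h2 : x ^ p ≤ b / (a + 1) := by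
    have h3 := Real.rpow_le_rpow hx hxg hp.le
    rw [← Real.rpow_mul h1.le, one_div_mul_cancel hp.ne', Real.rpow_one] at h3
    exact h3
  calc a * x ^ p ≤ a * (b / (a + 1)) := mul_le_mul_of_nonneg_left h2 ha
    _ ≤ (a + 1) * (b / (a + 1)) := mul_le_mul_of_nonneg_right (by linarith) h1.le
    _ = b := by field_simp

theorem pow_bound {y v M : ℝ} (hy : 0 ≤ y) (hv : 0 < v) (hyv : y ≤ v) (hM : y ≤ M) :
    v ^ (-(15 / 16) : ℝ) * y ≤ M ^ (1 / 16 : ℝ) := by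
  have h1 : y = y ^ (15 / 16 : ℝ) * y ^ (1 / 16 : ℝ) := by
    rw [← Real.rpow_add_of_nonneg hy (by norm_num) (by norm_num)]
    norm_num
  have h2 : v ^ (-(15 / 16) : ℝ) * y ^ (15 / 16 : ℝ) ≤ 1 := by
    rw [Real.rpow_neg hv.le, inv_mul_le_iff₀ (Real.rpow_pos_of_pos hv _), mul_one]
    exact Real.rpow_le_rpow hy hyv (by norm_num)
  calc v ^ (-(15 / 16) : ℝ) * y = (v ^ (-(15 / 16) : ℝ) * y ^ (15 / 16 : ℝ)) * y ^ (1 / 16 : ℝ) := by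
        conv_lhs => rw [h1]
        ring
    _ ≤ 1 * y ^ (1 / 16 : ℝ) :=
        mul_le_mul_of_nonneg_right h2 (Real.rpow_nonneg hy _)
    _ = y ^ (1 / 16 : ℝ) := one_mul _
    _ ≤ M ^ (1 / 16 : ℝ) := Real.rpow_le_rpow hy hM (by norm_num)

/-- facts on the value of the transform -/
theorem h0_facts {h0 : ℂ} {Ch ch : ℝ} (hch : 0 < ch) (h1 : ‖h0‖ ≤ Ch) (h2 : ch ≤ h0.im) :
    h0 ≠ 0 ∧ ch ≤ ‖h0‖ ∧ ‖1 / h0‖ ≤ 1 / ch ∧ (1 / h0).im ≤ -(ch / Ch ^ 2) := by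
  have h3 : ch ≤ ‖h0‖ := h2.trans ((le_abs_self _).trans (Complex.abs_im_le_norm h0))
  have h4 : 0 < ‖h0‖ := lt_of_lt_of_le hch h3
  refine ⟨norm_pos_iff.1 h4, h3, ?_, ?_⟩
  · rw [norm_div, norm_one]
    exact one_div_le_one_div_of_le hch h3
  · rw [one_div, Complex.inv_im, Complex.normSq_eq_norm_sq, neg_div, neg_le_neg_iff]
    have h5 : ‖h0‖ ^ 2 ≤ Ch ^ 2 := pow_le_pow_left₀ h4.le h1 2
    exact div_le_div₀ (hch.le.trans h2) h2 (by positivity) h5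

theorem cayx_zero (x : ℂ) : cayx x 0 = (x + Complex.I) / (x - Complex.I) := by
  unfold cayx
  rw [Complex.ofReal_zero, add_zero]

theorem sub_I_ne {x : ℂ} (h : x.im ≤ 0) : x - Complex.I ≠ 0 := by
  intro h0
  have := congrArg Complex.im h0
  simp at this
  linarith

/-- the norm of the Cayley transform -/
theorem cay_norm {x : ℂ} {c E : ℝ} (hc : 0 < c) (hx : x.im ≤ -c) (hE : ‖x‖ + 1 ≤ E) :
    4 * c ≤ E ^ 2 ∧ ‖cayx x 0‖ ≤ 1 - 2 * c / E ^ 2 := by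
  have hE0 : 0 < E := by
    have := norm_nonneg x
    linarith
  have hne : x - Complex.I ≠ 0 := sub_I_ne (by linarith)
  obtain ⟨A, hA⟩ : ∃ A, A = ‖x + Complex.I‖ := ⟨_, rfl⟩
  obtain ⟨B, hB⟩ : ∃ B, B = ‖x - Complex.I‖ := ⟨_, rfl⟩
  have hA0 : 0 ≤ A := by rw [hA]; exact norm_nonneg _
  have hB0 : 0 < B := by rw [hB]; exact norm_pos_iff.2 hne
  have hBE : B ≤ E := by
    have h1 := norm_sub_le x Complex.I
    rw [Complex.norm_I] at h1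
    rw [hB]
    linarith
  have hAB : A ^ 2 = B ^ 2 + 4 * x.im := by
    rw [hA, hB, ← Complex.normSq_eq_norm_sq, ← Complex.normSq_eq_norm_sq, Complex.normSq_apply,
      Complex.normSq_apply]
    simp
    ring
  have hB2 : B ^ 2 ≤ E ^ 2 := pow_le_pow_left₀ hB0.le hBE 2
  have h4 : 4 * c ≤ E ^ 2 := by
    have := sq_nonneg A
    linarith
  refine ⟨h4, ?_⟩
  have hE2 : 0 < E ^ 2 := by positivity
  obtain ⟨t, ht⟩ : ∃ t, t = 2 * c / E ^ 2 := ⟨_, rfl⟩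
  have ht0 : 0 < t := by rw [ht]; positivity
  have ht1 : t ≤ 1 / 2 := by
    rw [ht, div_le_iff₀ hE2]
    linarith
  have htE : t * E ^ 2 = 2 * c := by
    rw [ht]
    field_simp
  rw [cayx_zero, norm_div, ← hA, ← hB, ← ht, div_le_iff₀ hB0]
  have h5 : A ^ 2 ≤ ((1 - t) * B) ^ 2 := by
    have h6 : t * B ^ 2 ≤ t * E ^ 2 := mul_le_mul_of_nonneg_left hB2 ht0.le
    have h7 : 0 ≤ t ^ 2 * B ^ 2 := by positivity
    have h8 : ((1 - t) * B) ^ 2 = B ^ 2 - 2 * (t * B ^ 2) + t ^ 2 * B ^ 2 := by ring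
    rw [h8, hAB]
    linarith
  exact (pow_le_pow_iff_left₀ hA0 (mul_nonneg (by linarith) hB0.le) two_ne_zero).1 h5

theorem toC_apply {X : Type} [TopologicalSpace X] {f : X → ℂ} (h : Continuous f) (k : X) :
    toC f k = f k := by
  unfold toC
  rw [dif_pos h]
  rfl

/-- change of the phase, in the form needed for `ZB` -/
theorem pert {s S S0 : ℂ} {M δ e : ℝ} (hδ : 0 < δ) (hδ1 : δ ≤ 1) (hS0 : ‖S0‖ + δ + 1 ≤ M)
    (hSi : S.im ≤ 0) (hS : ‖S - S0‖ ≤ 3 * δ / 8) (he : e * (8 * M * (M + 2)) ≤ δ)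
    (hs : ‖s - cayx S 0‖ ≤ e) :
    ‖Complex.I * (s + 1) - S0 * (s - 1)‖ ≤ δ / 2 * ‖s - 1‖ := by
  have hM : 1 ≤ M := by
    have := norm_nonneg S0
    linarith
  have hne : S - Complex.I ≠ 0 := sub_I_ne hSi
  obtain ⟨v, hv⟩ : ∃ v, v = cayx S 0 := ⟨_, rfl⟩
  rw [← hv] at hs
  have e1 : v - 1 = 2 * Complex.I / (S - Complex.I) := by
    rw [hv, cayx_zero, div_sub_one hne]
    congr 1
    ring
  have e2 : Complex.I * (v + 1) = S * (v - 1) := by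
    have h1 : v = (S + Complex.I) / (S - Complex.I) := by rw [hv, cayx_zero]
    rw [h1]
    field_simp
    ring
  have hSn : ‖S - Complex.I‖ ≤ M := by
    have h1 := norm_sub_le S Complex.I
    rw [Complex.norm_I] at h1
    have h2 := norm_add_le (S - S0) S0
    rw [sub_add_cancel] at h2
    linarith
  have hv1 : 2 / M ≤ ‖v - 1‖ := by
    rw [e1, norm_div, norm_mul, Complex.norm_I, Complex.norm_two, mul_one]
    exact div_le_div_of_nonneg_left (by norm_num) (norm_pos_iff.2 hne) hSn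
  have he0 : 0 ≤ e := (norm_nonneg _).trans hs
  have heM : e ≤ 1 / M := by
    rw [le_div_iff₀ (by linarith)]
    have h1 : e * M ≤ e * (8 * M * (M + 2)) := by
      apply mul_le_mul_of_nonneg_left _ he0
      nlinarith
    linarith
  have hs1 : 1 / M ≤ ‖s - 1‖ := by
    have h1 := norm_sub_norm_le (v - 1) (v - s)
    have h2 : v - 1 - (v - s) = s - 1 := by ring
    rw [h2, norm_sub_rev v s] at h1
    have h3 : 2 / M = 1 / M + 1 / M := by ring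
    linarith
  have hv2 : ‖v - 1‖ ≤ ‖s - 1‖ + e := by
    have h1 := norm_sub_le (s - 1) (s - v)
    have h2 : s - 1 - (s - v) = v - 1 := by ring
    rw [h2] at h1
    linarith
  have e3 : Complex.I * (s + 1) - S0 * (s - 1) =
      (S - S0) * (v - 1) + (Complex.I - S0) * (s - v) := by
    linear_combination e2
  rw [e3]
  refine (norm_add_le _ _).trans ?_
  rw [norm_mul, norm_mul]
  have h1 : ‖Complex.I - S0‖ ≤ M := by
    have := norm_sub_le Complex.I S0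
    rw [Complex.norm_I] at this
    linarith
  have h2 : ‖S - S0‖ * ‖v - 1‖ ≤ 3 * δ / 8 * (‖s - 1‖ + e) :=
    mul_le_mul hS hv2 (norm_nonneg _) (by positivity)
  have h3 : ‖Complex.I - S0‖ * ‖s - v‖ ≤ M * e := mul_le_mul h1 hs (norm_nonneg _) (by linarith)
  have h4 : (M + 2) * e ≤ δ / 8 * ‖s - 1‖ := by
    have h5 : (M + 2) * e ≤ δ / 8 * (1 / M) := by
      rw [mul_one_div, le_div_iff₀ (by linarith)]
      linarith
    exact h5.trans (mul_le_mul_of_nonneg_left hs1 (by positivity))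
  have h5 : 3 * δ / 8 * e ≤ 1 * e := mul_le_mul_of_nonneg_right (by linarith) he0
  linarith

/-- one step -/
theorem inv {d : ℕ} {μ : Measure ℝ} [IsProbabilityMeasure μ] {w A κ γ y₀ : ℝ} (hγ : 0 < γ)
    (hUX : S_UX) (hNRES : S_NRES) (hBL : S_BL)
    {ρ : Measure ℝ} [IsProbabilityMeasure ρ] {R : ℝ} (hρ : ρ (Set.Icc (-R) R)ᶜ = 0)
    {K : C(UnitAddTorus (Fin d), ℝ)} (hK : ∀ k, K k = κ + γ * lap d k) {z : ℂ}
    (hzr : |z.re - κ| ≤ A) (hz : 0 < z.im) (hz1 : z.im ≤ 1)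
    {Ch ch δ L B e1 CP E0 : ℝ} (hUL : UL μ w (A + 1) Ch ch y₀)
    (hN1 : ∀ ζ : ℂ, |ζ.re| ≤ A + 1 → y₀ ≤ ζ.im → ζ.im ≤ 2 → ∀ N : C(UnitAddTorus (Fin d), ℂ),
      (∀ (u : l2 (Fin d → ℤ)) (x : Fin d → ℤ),
        ∫ v, gr w (xs d γ ζ) v u x ∂(Pn μ (Fin d → ℤ)) = opr N u x) →
      ∀ k, ‖N k - hm μ ζ‖ ≤ e1)
    (hPT : ∀ ζ : ℂ, |ζ.re| ≤ A + 1 → y₀ ≤ ζ.im → ζ.im ≤ 2 →
      ∀ Y N N' : C(UnitAddTorus (Fin d), ℂ), ‖Y‖ ≤ ζ.im / 2 →
      (∀ (u : l2 (Fin d → ℤ)) (x : Fin d → ℤ),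
        ∫ v, gr w (xs d γ ζ) v u x ∂(Pn μ (Fin d → ℤ)) = opr N u x) →
      (∀ (u : l2 (Fin d → ℤ)) (x : Fin d → ℤ),
        ∫ v, gr w (xs d γ ζ + Y) v u x ∂(Pn μ (Fin d → ℤ)) = opr N' u x) →
      ∀ k, ‖N' k - N k‖ ≤ CP * (γ ^ (1 / 4 : ℝ) / ζ.im + w * ζ.im ^ (-(15 / 16) : ℝ)) * ‖Y‖
        + CP * (‖Y‖ / ζ.im) ^ 2)
    (hLQ : ∀ t : ℂ, t.im ≤ -(ch / (2 * Ch ^ 2)) → ‖t‖ ≤ 1 / ch + 1 → ‖qf ρ t‖ ≤ B ∧
      (qf ρ t).im ≤ -y₀ ∧ ∀ t' : ℂ, t'.im ≤ -(ch / (2 * Ch ^ 2)) → ‖t'‖ ≤ 1 / ch + 1 →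
        ‖qf ρ t - qf ρ t'‖ ≤ L * ‖t - t'‖)
    (hδ : 0 < δ) (hδ1 : δ ≤ 1) (hδc : δ ≤ ch / (2 * Ch ^ 2)) (hδch : δ ≤ ch)
    (hL : 0 ≤ L) (hCP : 0 ≤ CP) (hLδ : L * δ ≤ y₀ / 2) (hγδ : 4 * d * γ ≤ δ / 16)
    (hBδ : B ≤ δ / 16) (hyδ : y₀ ≤ δ / 16)
    (hE : e1 + (CP * γ ^ (1 / 4 : ℝ) * (L * δ / y₀) + CP * (w * (L * δ) ^ (1 / 16 : ℝ))
      + CP * (L * δ / y₀) ^ 2) + Ch * (B + y₀) ≤ E0)
    (hE1 : 2 / ch ^ 2 * E0 ≤ 3 * δ / 16) (hE2 : E0 ≤ ch / 2) :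
    ∀ s ∈ ZB d (1 / hm μ (z - κ + y₀ * Complex.I) + (z - κ + y₀ * Complex.I)) (δ / 2),
      ∃ X : C(UnitAddTorus (Fin d), ℂ), UU ρ (wz K z) s = (toC fun k => cayx (X k) 0) ∧
        (∀ k, (X k).im ≤ -(y₀ / 2)) ∧ (∀ k, ‖X k‖ + 1 ≤ A + 4) ∧
        ∀ k, ∃ S' : ℂ, psi μ (toC fun k => cayx (X k) 0) k = cayx S' 0 ∧
          ‖S' - (1 / hm μ (z - κ + y₀ * Complex.I) + (z - κ + y₀ * Complex.I))‖ ≤ 3 * δ / 8 := by
  intro s hs
  have hch := hUL.hc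
  have hCh := hUL.hC
  have hy := hUL.hy
  have hA : 0 ≤ A := (abs_nonneg _).trans hzr
  have hw : 0 ≤ w := by
    have := hUL.hw
    linarith
  obtain ⟨ζ0, hζ0⟩ : ∃ ζ0 : ℂ, ζ0 = z - κ := ⟨_, rfl⟩
  rw [← hζ0] at hs ⊢
  have hζ0i : ζ0.im = z.im := by rw [hζ0]; simp
  have hζ0r : ζ0.re = z.re - κ := by rw [hζ0]; simp
  have hζ0re : |ζ0.re| ≤ A := by rw [hζ0r]; exact hzr
  obtain ⟨ζ1, hζ1⟩ : ∃ ζ1 : ℂ, ζ1 = ζ0 + y₀ * Complex.I := ⟨_, rfl⟩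
  rw [← hζ1] at hs ⊢
  have hζ1i : ζ1.im = z.im + y₀ := by rw [hζ1]; simp [hζ0i]
  have hζ1r : ζ1.re = ζ0.re := by rw [hζ1]; simp
  have hζ10 : ‖ζ1 - ζ0‖ ≤ y₀ := by
    have h1 : ζ1 - ζ0 = y₀ * Complex.I := by rw [hζ1]; ring
    rw [h1, norm_mul, Complex.norm_I, mul_one, Complex.norm_real, Real.norm_eq_abs,
      abs_of_pos hy]
  obtain ⟨hu1, hu2, hu3⟩ := hUL.u7 ζ1 (by rw [hζ1r]; linarith) (by rw [hζ1i]; linarith)
    (by rw [hζ1i]; linarith)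
  have hLip := fun ζ (h : y₀ ≤ ζ.im) => hUL.u8 ζ ζ1 h (by rw [hζ1i]; linarith)
  obtain ⟨h0, hh0⟩ : ∃ h0, h0 = hm μ ζ1 := ⟨_, rfl⟩
  rw [← hh0] at hs hu1 hu2 hu3 hLip ⊢
  obtain ⟨S0, hS0⟩ : ∃ S0, S0 = 1 / h0 + ζ1 := ⟨_, rfl⟩
  rw [← hS0] at hs hu3 ⊢
  obtain ⟨h0ne, h0n, ht0n, ht0i⟩ := h0_facts hch hu1 hu2
  obtain ⟨-, -, hZ, hZ'⟩ := hBL d S0 (δ / 2) ch hch hu3 (by positivity) (by linarith)
  obtain ⟨-, S, hS⟩ := hZ s hs
  have hcc : ch / Ch ^ 2 = 2 * (ch / (2 * Ch ^ 2)) := by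
    have : 0 < Ch := by linarith
    field_simp
  -- the argument
  obtain ⟨t, ht⟩ : ∃ t : UnitAddTorus (Fin d) → ℂ, ∀ k, t k = ((K k : ℂ) - z) + S k :=
    ⟨_, fun _ => rfl⟩
  have hlap : ∀ k, ‖((γ * lap d k : ℝ) : ℂ)‖ ≤ δ / 16 := by
    intro k
    rw [Complex.norm_real, Real.norm_eq_abs]
    obtain ⟨l1, l2⟩ := Pool.Agent.N163.HB.GAPA.lap_mem d k
    rw [abs_of_nonneg (by positivity)]
    nlinarith
  have htd : ∀ k, ‖t k - 1 / h0‖ ≤ δ := by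
    intro k
    have e : t k - 1 / h0 = ((γ * lap d k : ℝ) : ℂ) + (S k - S0) + (ζ1 - ζ0) := by
      rw [ht, hK, hS0, hζ0]
      push_cast
      ring
    rw [e]
    have h1 := norm_add_le (((γ * lap d k : ℝ) : ℂ) + (S k - S0)) (ζ1 - ζ0)
    have h4 := norm_add_le ((γ * lap d k : ℝ) : ℂ) (S k - S0)
    have h2 := (hS k).2.1
    have h3 := hlap k
    linarith
  have ht0 : (1 / h0).im ≤ -(ch / (2 * Ch ^ 2)) ∧ ‖1 / h0‖ ≤ 1 / ch + 1 := by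
    have : 0 < ch / (2 * Ch ^ 2) := by positivity
    constructor <;> linarith
  have htr : ∀ k, (t k).im ≤ -(ch / (2 * Ch ^ 2)) ∧ ‖t k‖ ≤ 1 / ch + 1 := by
    intro k
    have h1 := htd k
    have h2 : |(t k - 1 / h0).im| ≤ ‖t k - 1 / h0‖ := Complex.abs_im_le_norm _
    have h3 := (abs_le.1 (h2.trans h1)).2
    rw [Complex.sub_im] at h3
    have h4 : ‖t k‖ ≤ ‖t k - 1 / h0‖ + ‖1 / h0‖ := by
      have := norm_add_le (t k - 1 / h0) (1 / h0)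
      rwa [sub_add_cancel] at this
    constructor <;> linarith
  obtain ⟨hq1, hq2, -⟩ := hLQ (1 / h0) ht0.1 ht0.2
  -- the perturbation
  have htc : Continuous t := by
    have : t = fun k => ((K k : ℂ) - z) + S k := funext ht
    rw [this]
    fun_prop
  have hqc : Continuous fun k => qf ρ (t k) := by
    have h1 : LipschitzOnWith L.toNNReal (qf ρ)
        {t : ℂ | t.im ≤ -(ch / (2 * Ch ^ 2)) ∧ ‖t‖ ≤ 1 / ch + 1} := by
      refine LipschitzOnWith.of_dist_le_mul fun x hx y hy => ?_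
      rw [Real.coe_toNNReal _ hL, dist_eq_norm, dist_eq_norm]
      exact (hLQ x hx.1 hx.2).2.2 y hy.1 hy.2
    exact h1.continuousOn.comp_continuous htc htr
  obtain ⟨Y, hY⟩ : ∃ Y : C(UnitAddTorus (Fin d), ℂ), ∀ k, Y k = qf ρ (t k) - qf ρ (1 / h0) :=
    ⟨⟨fun k => qf ρ (t k) - qf ρ (1 / h0), hqc.sub continuous_const⟩, fun _ => rfl⟩
  have hYn : ‖Y‖ ≤ L * δ := by
    rw [ContinuousMap.norm_le _ (by positivity)]
    intro k
    rw [hY]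
    exact ((hLQ (t k) (htr k).1 (htr k).2).2.2 (1 / h0) ht0.1 ht0.2).trans
      (mul_le_mul_of_nonneg_left (htd k) hL)
  -- the energy
  obtain ⟨ζ, hζ⟩ : ∃ ζ, ζ = ζ0 - qf ρ (1 / h0) := ⟨_, rfl⟩
  have hqi : |(qf ρ (1 / h0)).im| ≤ B := (Complex.abs_im_le_norm _).trans hq1
  have hqr : |(qf ρ (1 / h0)).re| ≤ B := (Complex.abs_re_le_norm _).trans hq1
  have hζm : y₀ ≤ ζ.im := by
    rw [hζ, Complex.sub_im, hζ0i]
    linarith
  have hζi : 0 < ζ.im := by linarith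
  have hζ2 : ζ.im ≤ 2 := by
    rw [hζ, Complex.sub_im, hζ0i]
    have := (abs_le.1 hqi).1
    linarith
  have hζr : |ζ.re| ≤ A + 1 := by
    rw [hζ, Complex.sub_re]
    have := abs_sub (ζ0.re) ((qf ρ (1 / h0)).re)
    linarith
  have hYζ : ‖Y‖ ≤ ζ.im / 2 := by linarith
  -- the symbol
  obtain ⟨X, hX⟩ : ∃ X : C(UnitAddTorus (Fin d), ℂ), X = xs d γ ζ + Y := ⟨_, rfl⟩
  have hXk : ∀ k, X k = ((γ * lap d k : ℝ) : ℂ) - ζ + Y k := by
    intro k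
    rw [hX]
    rfl
  have hXi : ∀ k, (X k).im ≤ -(ζ.im / 2) := by
    intro k
    rw [hXk, Complex.add_im, Complex.sub_im, Complex.ofReal_im]
    have h1 : |(Y k).im| ≤ ζ.im / 2 :=
      (Complex.abs_im_le_norm _).trans ((Y.norm_coe_le_norm k).trans hYζ)
    have := (abs_le.1 h1).2
    linarith
  have hXv : ∀ k, X k = ((γ * lap d k : ℝ) : ℂ) - ζ0 + qf ρ (t k) := by
    intro k
    rw [hXk, hY, hζ]
    ring
  have a8 : ∀ k, ‖qf ρ (t k)‖ ≤ δ / 16 := fun k => (hLQ (t k) (htr k).1 (htr k).2).1.trans hBδ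
  have hXn : ∀ k, ‖X k‖ + 1 ≤ A + 4 := by
    intro k
    rw [hXv]
    have h1 := norm_add_le (((γ * lap d k : ℝ) : ℂ) - ζ0) (qf ρ (t k))
    have h2 := norm_sub_le ((γ * lap d k : ℝ) : ℂ) ζ0
    have h3 := hlap k
    have h4 := a8 k
    have h5 : ‖ζ0‖ ≤ A + 1 := by
      refine (Complex.norm_le_abs_re_add_abs_im _).trans ?_
      rw [hζ0i, abs_of_pos hz]
      linarith
    linarith
  obtain ⟨N', hN', hN'2⟩ := hNRES μ d w (ζ.im / 2) X hw (by positivity) hXi hUL.supp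
  obtain ⟨N, hN, -⟩ := hNRES μ d w ζ.im (xs d γ ζ) hw hζi (fun k => by
    show (((γ * lap d k : ℝ) : ℂ) - ζ).im ≤ _
    rw [Complex.sub_im, Complex.ofReal_im, zero_sub]) hUL.supp
  have hXbet : ∀ k, 1 / bet ρ (((K k : ℂ) - z) + S k) - S k = X k := by
    intro k
    rw [hXk, hY, hζ, ← ht k]
    unfold qf
    have h1 := ht k
    rw [hK] at h1
    rw [hζ0]
    push_cast at h1 ⊢
    linear_combination h1
  have hUU : UU ρ (wz K z) s = toC fun k => cayx (X k) 0 := by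
    unfold UU
    congr 1
    funext k
    have h1 := (hUX ρ R ((K k : ℂ) - z) (S k) hρ (by simpa using hz)
      (by have := (hS k).2.2; linarith)).2.2
    rw [hXbet k] at h1
    rw [(hS k).1, ← h1]
    rfl
  refine ⟨X, hUU, fun k => by have := hXi k; linarith, hXn, fun k => ⟨1 / N' k - X k,
    (hN'2 k).2, ?_⟩⟩
  -- the errors
  have a1 : ‖N k - hm μ ζ‖ ≤ e1 := hN1 ζ hζr hζm hζ2 N hN k
  have a2 := hPT ζ hζr hζm hζ2 Y N N' hYζ hN (by rw [← hX]; exact hN') k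
  have a3 : ‖hm μ ζ - h0‖ ≤ Ch * (B + y₀) := by
    refine (hLip ζ hζm).trans (mul_le_mul_of_nonneg_left ?_ (by linarith))
    have : ζ - ζ1 = -qf ρ (1 / h0) - (ζ1 - ζ0) := by rw [hζ]; ring
    rw [this]
    refine (norm_sub_le _ _).trans ?_
    rw [norm_neg]
    linarith
  have hYm : ‖Y‖ / ζ.im ≤ L * δ / y₀ := div_le_div₀ (by positivity) hYn hy hζm
  have a4 : CP * (γ ^ (1 / 4 : ℝ) / ζ.im + w * ζ.im ^ (-(15 / 16) : ℝ)) * ‖Y‖
      + CP * (‖Y‖ / ζ.im) ^ 2 ≤ CP * γ ^ (1 / 4 : ℝ) * (L * δ / y₀) +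
        CP * (w * (L * δ) ^ (1 / 16 : ℝ)) + CP * (L * δ / y₀) ^ 2 := by
    have b1 : 0 ≤ γ ^ (1 / 4 : ℝ) := Real.rpow_nonneg hγ.le _
    have b2 : ζ.im ^ (-(15 / 16) : ℝ) * ‖Y‖ ≤ (L * δ) ^ (1 / 16 : ℝ) :=
      pow_bound (norm_nonneg _) hζi (by linarith) hYn
    have b3 : (‖Y‖ / ζ.im) ^ 2 ≤ (L * δ / y₀) ^ 2 :=
      pow_le_pow_left₀ (by positivity) hYm 2
    have b4 : γ ^ (1 / 4 : ℝ) * (‖Y‖ / ζ.im) ≤ γ ^ (1 / 4 : ℝ) * (L * δ / y₀) :=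
      mul_le_mul_of_nonneg_left hYm b1
    have b5 := mul_le_mul_of_nonneg_left (mul_le_mul_of_nonneg_left b2 hw) hCP
    have b6 := mul_le_mul_of_nonneg_left b3 hCP
    have b7 := mul_le_mul_of_nonneg_left b4 hCP
    have e : CP * (γ ^ (1 / 4 : ℝ) / ζ.im + w * ζ.im ^ (-(15 / 16) : ℝ)) * ‖Y‖ =
        CP * (γ ^ (1 / 4 : ℝ) * (‖Y‖ / ζ.im)) + CP * (w * (ζ.im ^ (-(15 / 16) : ℝ) * ‖Y‖)) := by
      ring
    rw [e]
    linarith
  have a5 : ‖N' k - h0‖ ≤ E0 := by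
    have e : N' k - h0 = (N' k - N k) + (N k - hm μ ζ) + (hm μ ζ - h0) := by ring
    rw [e]
    have h1 := norm_add_le ((N' k - N k) + (N k - hm μ ζ)) (hm μ ζ - h0)
    have h2 := norm_add_le (N' k - N k) (N k - hm μ ζ)
    linarith
  have hN'0 : N' k ≠ 0 := (hN'2 k).1
  have a6 : ch / 2 ≤ ‖N' k‖ := by
    have h1 := norm_sub_le (N' k) (N' k - h0)
    have h2 : N' k - (N' k - h0) = h0 := by ring
    rw [h2] at h1
    linarith
  have a7 : ‖1 / N' k - 1 / h0‖ ≤ 3 * δ / 16 := by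
    have e : 1 / N' k - 1 / h0 = -((N' k - h0) / (N' k * h0)) := by
      field_simp
      ring
    rw [e, norm_neg, norm_div, norm_mul]
    have h1 : ch / 2 * ch ≤ ‖N' k‖ * ‖h0‖ := mul_le_mul a6 h0n hch.le (by positivity)
    have h2 : 0 ≤ E0 := (norm_nonneg _).trans a5
    calc ‖N' k - h0‖ / (‖N' k‖ * ‖h0‖) ≤ E0 / (ch / 2 * ch) :=
          div_le_div₀ h2 a5 (by positivity) h1
      _ = 2 / ch ^ 2 * E0 := by field_simp
      _ ≤ _ := hE1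
  have e : 1 / N' k - X k - S0 = (1 / N' k - 1 / h0) - ((γ * lap d k : ℝ) : ℂ) - qf ρ (t k) -
      (ζ1 - ζ0) := by
    rw [hXk, hY, hζ, hS0]
    ring
  rw [e]
  have h1 := norm_sub_le ((1 / N' k - 1 / h0) - ((γ * lap d k : ℝ) : ℂ) - qf ρ (t k)) (ζ1 - ζ0)
  have h4 := norm_sub_le ((1 / N' k - 1 / h0) - ((γ * lap d k : ℝ) : ℂ)) (qf ρ (t k))
  have h2 := norm_sub_le (1 / N' k - 1 / h0) ((γ * lap d k : ℝ) : ℂ)
  have h3 := hlap k
  have h5 := a8 k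
  linarith

/-- **SN/SDGU.** -/
theorem main : S_CAY → S_CX → S_FIX → S_UX → S_NRES → S_TRU → S_N1U → S_PTU → S_LQ → S_BL →
    S_PSIX → S_SDGU := by
  intro _ hCX hFIX hUX hNRES hTRU hN1 hPT hLQ hBL hPSI
  intro ψ hψ d s A κ hd hs hA
  obtain ⟨Ch, ch, hCh, hch, hTR⟩ := hTRU s (A + 1) hs (by linarith)
  obtain ⟨CN, gN, hCN, hgN, hN1'⟩ := hN1 d (A + 1) Ch ch
  obtain ⟨CP, gP, hCP, hgP, hPT'⟩ := hPT d (A + 1) Ch ch
  have hCh0 : 0 < Ch := by linarith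
  have hc1 : 0 < ch / (2 * Ch ^ 2) := by positivity
  obtain ⟨C2, c2, r1, hC2, hc2, hr1, hLQ'⟩ := hLQ ψ hψ (1 / ch + 1) (ch / (2 * Ch ^ 2))
    (by positivity) hc1
  have hchCh : ch ≤ Ch := by
    obtain ⟨w, X, X', -, -, hUL, -, -⟩ := hTR (1 / 2) (by norm_num) le_rfl
    obtain ⟨h1, h2, -⟩ := hUL.u7 Complex.I (by simp; linarith) (by simp; norm_num) (by simp)
    exact h2.trans ((le_abs_self _).trans ((Complex.abs_im_le_norm _).trans h1))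
  obtain ⟨Λ, hΛ⟩ : ∃ Λ, Λ = C2 / c2 := ⟨_, rfl⟩
  have hΛ0 : 0 < Λ := by rw [hΛ]; positivity
  obtain ⟨F, hF⟩ : ∃ F, F = 2 / ch ^ 2 := ⟨_, rfl⟩
  have hF0 : 0 < F := by rw [hF]; positivity
  -- the radius
  obtain ⟨δ, hδ⟩ : ∃ δ, δ = 1 / (1 + 2 * Ch ^ 2 / ch + 2 * Λ + 1 / ch + 16 * (F * CP * Λ ^ 2)) :=
    ⟨_, rfl⟩
  have hCP0 : 0 < CP := by linarith
  have hCN0 : 0 < CN := by linarith
  have hδ0 : 0 < δ := by rw [hδ]; positivity
  have hδs : δ + δ * (2 * Ch ^ 2 / ch) + δ * (2 * Λ) + δ * (1 / ch) +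
      δ * (16 * (F * CP * Λ ^ 2)) = 1 := by
    have : δ * (1 + 2 * Ch ^ 2 / ch + 2 * Λ + 1 / ch + 16 * (F * CP * Λ ^ 2)) = 1 := by
      rw [hδ]
      exact one_div_mul_cancel (by positivity)
    linarith
  have p1 : 0 ≤ δ * (2 * Ch ^ 2 / ch) := by positivity
  have p2 : 0 ≤ δ * (2 * Λ) := by positivity
  have p3 : 0 ≤ δ * (1 / ch) := by positivity
  have p4 : 0 ≤ δ * (16 * (F * CP * Λ ^ 2)) := by positivity
  have hδ1 : δ ≤ 1 := by linarith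
  have hδc : δ ≤ ch / (2 * Ch ^ 2) := by
    have h1 : δ * (2 * Ch ^ 2 / ch) ≤ 1 := by linarith
    rw [le_div_iff₀ (by positivity)]
    rwa [← mul_div_assoc, div_le_one hch] at h1
  have hδch : δ ≤ ch := by
    have h1 : δ * (1 / ch) ≤ 1 := by linarith
    rwa [mul_one_div, div_le_one hch] at h1
  have hδΛ : Λ * δ ≤ 1 / 2 := by
    have h1 : δ * (2 * Λ) ≤ 1 := by linarith
    linarith
  have hδA : F * (CP * (Λ * δ) ^ 2) ≤ δ / 16 := by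
    have h1 : δ * (16 * (F * CP * Λ ^ 2)) ≤ 1 := by linarith
    have h2 := mul_le_mul_of_nonneg_left h1 hδ0.le
    nlinarith
  have hδ32 : 0 < δ / 32 := by positivity
  have hδ16 : 0 < δ / 16 := by positivity
  -- the couplings
  obtain ⟨g1, hg1, hg1'⟩ := small_pow (p := 1 / 12) (a := F * CN) (by norm_num) (by positivity) hδ32
  obtain ⟨g2, hg2, hg2'⟩ := small_pow (p := 1 / 4) (a := F * CP * (Λ * δ)) (by norm_num)
    (by positivity) hδ32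
  obtain ⟨g3, hg3, hg3'⟩ := small_pow (p := 1 / 16)
    (a := F * CP * (Ch * c2 ^ (-(1 / 32) : ℝ) * (C2 * δ) ^ (1 / 16 : ℝ))) (by norm_num)
    (by positivity) hδ32
  have hdR : (0 : ℝ) < d := by exact_mod_cast hd
  -- the change of the law
  obtain ⟨M, hM⟩ : ∃ M, M = 1 / ch + (A + 2) + δ + 1 := ⟨_, rfl⟩
  have hM0 : 0 < M := by rw [hM]; positivity
  obtain ⟨P, hP⟩ : ∃ P, P = 8 * (A + 4) ^ 6 * c2 ^ 2 * (8 * M * (M + 2)) := ⟨_, rfl⟩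
  have hP0 : 0 < P := by rw [hP]; positivity
  refine ⟨min (min gN gP) (min (min g1 g2) (δ / 16 / (4 * d))),
    min (min r1 1) (min (min (δ / 16 / C2) (δ / 16 / c2))
      (min (δ / 32 / (F * Ch * (C2 + c2))) (min g3 (δ / P)))), by positivity, ?_, ?_⟩
  · refine lt_min (lt_min hr1 one_pos) (lt_min (lt_min (by positivity) (by positivity))
      (lt_min (by positivity) (lt_min hg3 (by positivity))))
  intro γ r hγ hγ0 hr hr0
  obtain ⟨⟨hγN, hγP⟩, ⟨hγ1, hγ2⟩, hγd⟩ : (γ ≤ gN ∧ γ ≤ gP) ∧ (γ ≤ g1 ∧ γ ≤ g2) ∧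
      γ ≤ δ / 16 / (4 * d) := by
    simp only [le_min_iff] at hγ0
    exact hγ0
  obtain ⟨⟨hrr1, hr1'⟩, ⟨hrC, hrc⟩, hrh, hrg, hrP⟩ : (r ≤ r1 ∧ r ≤ 1) ∧
      (r ≤ δ / 16 / C2 ∧ r ≤ δ / 16 / c2) ∧ r ≤ δ / 32 / (F * Ch * (C2 + c2)) ∧
      r ≤ g3 ∧ r ≤ δ / P := by
    simp only [le_min_iff] at hr0
    exact hr0
  rw [le_div_iff₀ (by positivity)] at hγd hrC hrc hrh hrP
  have hrr : r ^ 2 ≤ r := by nlinarith
  -- the scale
  obtain ⟨y₀, hy₀⟩ : ∃ y₀, y₀ = c2 * r ^ 2 := ⟨_, rfl⟩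
  have hy0 : 0 < y₀ := by rw [hy₀]; positivity
  have hyr : y₀ ≤ c2 * r := by
    rw [hy₀]
    exact mul_le_mul_of_nonneg_left hrr hc2.le
  have hyδ : y₀ ≤ δ / 16 := by linarith
  obtain ⟨w, X, X', hX, hvr, hUL, hcd, hw⟩ := hTR y₀ hy0 (by linarith)
  have hw0 : 0 ≤ w := by
    have := hUL.hw
    linarith
  -- the gap
  refine ⟨ch / M ^ 2, by positivity, ?_⟩
  intro ρ' _ hρ' K hK z hzr hz hz1 s' hs'
  have hs'' : IsFix (qlaw X) ((lev ψ r).conv ρ') (wz K z) s' := by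
    have key : ∀ (ν : Measure ℝ) [IsProbabilityMeasure ν], qlaw X = ν →
        IsFix ν ((lev ψ r).conv ρ') (wz K z) s' →
        IsFix (qlaw X) ((lev ψ r).conv ρ') (wz K z) s' := by
      intro ν _ h h'
      subst h
      exact h'
    exact key (gs s) hX hs'
  have hprob : IsProbabilityMeasure (lev ψ r) := Pool.Agent.N163.HB.GAPA.lev_prob ψ r
  have hsupp : ((lev ψ r).conv ρ') (Set.Icc (-(r + r / 8)) (r + r / 8))ᶜ = 0 :=
    Pool.Agent.N163.HB.GAPA.conv_supp _ _ (Pool.Agent.N163.HB.GAPA.lev_supp hψ hr) hρ'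
  obtain ⟨_, _, hCX3, hCX4⟩ := hCX
  obtain ⟨q, hq0, hq1, hq⟩ := hCX3 (r + r / 8) (‖K‖ + ‖z‖) z.im hz
  have hw' : ∀ k, ∀ a ∈ Set.Icc (-(r + r / 8)) (r + r / 8), ‖wz K z k a‖ ≤ q := by
    intro k a ha
    refine hq _ a ?_ ?_ (abs_le.2 ha)
    · have h5 : ‖K k‖ ≤ ‖K‖ := K.norm_coe_le_norm k
      have h6 := norm_sub_le ((K k : ℝ) : ℂ) z
      rw [Complex.norm_real] at h6
      linarith
    · simp
  -- the facts on the level
  have hLQ'' : ∀ t : ℂ, t.im ≤ -(ch / (2 * Ch ^ 2)) → ‖t‖ ≤ 1 / ch + 1 →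
      ‖qf ((lev ψ r).conv ρ') t‖ ≤ C2 * r ∧ (qf ((lev ψ r).conv ρ') t).im ≤ -y₀ ∧
      ∀ t' : ℂ, t'.im ≤ -(ch / (2 * Ch ^ 2)) → ‖t'‖ ≤ 1 / ch + 1 →
        ‖qf ((lev ψ r).conv ρ') t - qf ((lev ψ r).conv ρ') t'‖ ≤ C2 * r ^ 2 * ‖t - t'‖ := by
    intro t h1 h2
    obtain ⟨-, h3, h4, h5⟩ := hLQ' r ρ' hr hrr1 hρ' t h1 h2
    rw [hy₀]
    exact ⟨h3, h4, h5⟩
  have hr2 : 0 < r ^ 2 := by positivity
  have hLm : C2 * r ^ 2 * δ / y₀ = Λ * δ := by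
    rw [hΛ, hy₀]
    field_simp
  -- the factor `w`
  have hwL : w * (C2 * r ^ 2 * δ) ^ (1 / 16 : ℝ) ≤
      Ch * c2 ^ (-(1 / 32) : ℝ) * (C2 * δ) ^ (1 / 16 : ℝ) * r ^ (1 / 16 : ℝ) := by
    have e1 : (C2 * r ^ 2 * δ) ^ (1 / 16 : ℝ) = (C2 * δ) ^ (1 / 16 : ℝ) * r ^ (1 / 8 : ℝ) := by
      have h1 : C2 * r ^ 2 * δ = (C2 * δ) * r ^ (2 : ℝ) := by
        rw [Real.rpow_two]; ring
      rw [h1, Real.mul_rpow (by positivity) (by positivity), ← Real.rpow_mul hr.le]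
      norm_num
    have e2 : y₀ ^ (-(1 / 32) : ℝ) = c2 ^ (-(1 / 32) : ℝ) * r ^ (-(1 / 16) : ℝ) := by
      have h1 : y₀ = c2 * r ^ (2 : ℝ) := by rw [hy₀, Real.rpow_two]
      rw [h1, Real.mul_rpow hc2.le (by positivity), ← Real.rpow_mul hr.le]
      norm_num
    have e3 : r ^ (-(1 / 16) : ℝ) * r ^ (1 / 8 : ℝ) = r ^ (1 / 16 : ℝ) := by
      rw [← Real.rpow_add hr]
      norm_num
    rw [e1]
    calc w * ((C2 * δ) ^ (1 / 16 : ℝ) * r ^ (1 / 8 : ℝ)) ≤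
        (Ch * y₀ ^ (-(1 / 32) : ℝ)) * ((C2 * δ) ^ (1 / 16 : ℝ) * r ^ (1 / 8 : ℝ)) :=
          mul_le_mul_of_nonneg_right hw (by positivity)
      _ = Ch * c2 ^ (-(1 / 32) : ℝ) * (C2 * δ) ^ (1 / 16 : ℝ) *
          (r ^ (-(1 / 16) : ℝ) * r ^ (1 / 8 : ℝ)) := by rw [e2]; ring
      _ = _ := by rw [e3]
  have hL3 := hg3' r hr.le hrg
  have hG1 := hg1' γ hγ.le hγ1
  have hG2 := hg2' γ hγ.le hγ2
  obtain ⟨E0, hE0⟩ : ∃ E0, E0 = CN * γ ^ (1 / 12 : ℝ) + (CP * γ ^ (1 / 4 : ℝ) *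
      (C2 * r ^ 2 * δ / y₀) + CP * (w * (C2 * r ^ 2 * δ) ^ (1 / 16 : ℝ))
      + CP * (C2 * r ^ 2 * δ / y₀) ^ 2) + Ch * (C2 * r + y₀) := ⟨_, rfl⟩
  have hAE : F * E0 ≤ 3 * δ / 16 := by
    rw [hE0, hLm]
    have e : F * (CN * γ ^ (1 / 12 : ℝ) + (CP * γ ^ (1 / 4 : ℝ) * (Λ * δ)
        + CP * (w * (C2 * r ^ 2 * δ) ^ (1 / 16 : ℝ)) + CP * (Λ * δ) ^ 2) + Ch * (C2 * r + y₀)) =
        F * CN * γ ^ (1 / 12 : ℝ) + F * CP * (Λ * δ) * γ ^ (1 / 4 : ℝ) +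
        F * CP * (w * (C2 * r ^ 2 * δ) ^ (1 / 16 : ℝ)) + F * (CP * (Λ * δ) ^ 2) +
        F * Ch * (C2 * r + y₀) := by ring
    rw [e]
    have h1 : F * CP * (w * (C2 * r ^ 2 * δ) ^ (1 / 16 : ℝ)) ≤ δ / 32 := by
      refine (mul_le_mul_of_nonneg_left hwL (by positivity)).trans (le_trans (le_of_eq ?_) hL3)
      ring
    have h2 : F * Ch * (C2 * r + y₀) ≤ δ / 32 := by
      have h3 : F * Ch * (C2 * r + y₀) ≤ F * Ch * (C2 * r + c2 * r) :=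
        mul_le_mul_of_nonneg_left (by linarith) (by positivity)
      have h4 : F * Ch * (C2 * r + c2 * r) = r * (F * Ch * (C2 + c2)) := by ring
      linarith
    linarith
  have hE2 : E0 ≤ ch / 2 := by
    have h1 : E0 ≤ 3 * δ / 16 * (ch ^ 2 / 2) := by
      have h2 : E0 = F * E0 * (ch ^ 2 / 2) := by
        rw [hF]
        field_simp
      rw [h2]
      exact mul_le_mul_of_nonneg_right hAE (by positivity)
    have h3 : δ * ch ^ 2 ≤ ch / 2 := by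
      have h4 : δ * ch ^ 2 ≤ ch / (2 * Ch ^ 2) * Ch ^ 2 :=
        mul_le_mul hδc (pow_le_pow_left₀ hch.le hchCh 2) (by positivity) hc1.le
      have h5 : ch / (2 * Ch ^ 2) * Ch ^ 2 = ch / 2 := by field_simp
      linarith
    nlinarith
  have hinv := inv (d := d) (μ := qlaw X') (w := w) (A := A) (κ := κ) (γ := γ) (y₀ := y₀) hγ hUX
    hNRES hBL (ρ := (lev ψ r).conv ρ') hsupp hK hzr hz hz1 (δ := δ) (L := C2 * r ^ 2)
    (B := C2 * r) (e1 := CN * γ ^ (1 / 12 : ℝ)) (CP := CP) (E0 := E0) hUL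
    (fun ζ h1 h2 h3 N hN k => hN1' (qlaw X') w y₀ hUL γ hγ hγN ζ h1 h2 h3 N hN k)
    (fun ζ h1 h2 h3 Y N N' hY hN hN' k =>
      hPT' (qlaw X') w y₀ hUL γ hγ hγP ζ h1 h2 h3 Y N N' hY hN hN' k)
    hLQ'' hδ0 hδ1 hδc hδch (by positivity) hCP0.le
    (by
      have h1 : C2 * r ^ 2 * δ = Λ * δ * y₀ := by
        rw [hΛ, hy₀]
        field_simp
      rw [h1]
      have h2 := mul_le_mul_of_nonneg_right hδΛ hy0.le
      linarith)
    (by linarith) (by linarith) hyδ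
    (le_of_eq hE0.symm) (by rw [← hF]; exact hAE) hE2
  -- the centre
  have hre : (z - κ + y₀ * Complex.I : ℂ).re = z.re - κ := by simp
  have him : (z - κ + y₀ * Complex.I : ℂ).im = z.im + y₀ := by simp
  obtain ⟨hu1, hu2, hu3⟩ := hUL.u7 (z - κ + y₀ * Complex.I) (by rw [hre]; linarith)
    (by rw [him]; linarith) (by rw [him]; linarith)
  obtain ⟨_, _, hi3, _⟩ := h0_facts hch hu1 hu2
  obtain ⟨S0, hS0⟩ : ∃ S0, S0 = 1 / hm (qlaw X') (z - κ + y₀ * Complex.I) +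
      (z - κ + y₀ * Complex.I) := ⟨_, rfl⟩
  rw [← hS0] at hu3 hinv
  have hn : ‖S0‖ ≤ 1 / ch + (A + 2) := by
    rw [hS0]
    refine (norm_add_le _ _).trans (add_le_add hi3 ?_)
    refine (Complex.norm_le_abs_re_add_abs_im _).trans ?_
    rw [him, hre, abs_of_pos (show 0 < z.im + y₀ by linarith)]
    linarith
  have hSM : ‖S0‖ + δ + 1 ≤ M := by rw [hM]; linarith
  obtain ⟨hcl, hne, hZ, -⟩ := hBL d S0 (δ / 2) ch hch hu3 (by positivity) (by linarith)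
  -- the small number
  obtain ⟨e, he⟩ : ∃ e, e = 8 * (A + 4) ^ 6 * y₀ ^ 2 := ⟨_, rfl⟩
  have heM : e * (8 * M * (M + 2)) ≤ δ := by
    have h1 : y₀ ^ 2 ≤ c2 ^ 2 * r := by
      rw [hy₀, mul_pow]
      refine mul_le_mul_of_nonneg_left ?_ (by positivity)
      have h2 : (r ^ 2) ^ 2 ≤ (r ^ 2) * 1 := by
        rw [sq (r ^ 2)]
        exact mul_le_mul_of_nonneg_left (by linarith) hr2.le
      linarith
    have h2 : e * (8 * M * (M + 2)) ≤ 8 * (A + 4) ^ 6 * (c2 ^ 2 * r) * (8 * M * (M + 2)) := by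
      rw [he]
      exact mul_le_mul_of_nonneg_right (mul_le_mul_of_nonneg_left h1 (by positivity))
        (by positivity)
    have h3 : 8 * (A + 4) ^ 6 * (c2 ^ 2 * r) * (8 * M * (M + 2)) = r * P := by
      rw [hP]; ring
    linarith
  have hmem := (hFIX (qlaw X) d ((lev ψ r).conv ρ') (r + r / 8) q (wz K z) hvr hsupp
    (hCX4 d K z hz.le) hq0 hq1 hw').2.2 (ZB d S0 (δ / 2)) hcl hne
    (fun s hs => by
      have h1 := (hZ s hs).1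
      have h2 : 0 ≤ ch / (‖S0‖ + δ / 2 + 1) ^ 2 := by positivity
      linarith) (fun s hs => by
      obtain ⟨Xs, hXs1, hXs2, hXs3, hXs4⟩ := hinv s hs
      have hE : 0 < A + 4 := by linarith
      have hcay := fun k => cay_norm (c := y₀ / 2) (by positivity) (hXs2 k) (hXs3 k)
      have h4c := (hcay 0).1
      have hE2' : 0 < (A + 4) ^ 2 := by positivity
      have hq2 : 2 * (y₀ / 2) / (A + 4) ^ 2 ≤ 1 / 2 := by
        rw [div_le_iff₀ hE2']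
        linarith
      have hq3 : 0 < 2 * (y₀ / 2) / (A + 4) ^ 2 := by positivity
      have hcc : Continuous fun k => cayx (Xs k) 0 := by
        have e1 : (fun k => cayx (Xs k) 0) =
            fun k => (Xs k + Complex.I) / (Xs k - Complex.I) := by
          funext k
          exact cayx_zero _
        rw [e1]
        exact (Xs.continuous.add continuous_const).div (Xs.continuous.sub continuous_const)
          fun k => sub_I_ne (by linarith [hXs2 k])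
      have hmn : ‖toC fun k => cayx (Xs k) 0‖ ≤ 1 - 2 * (y₀ / 2) / (A + 4) ^ 2 := by
        rw [ContinuousMap.norm_le _ (by linarith)]
        intro k
        rw [toC_apply hcc]
        exact (hcay k).2
      have hpsi := hPSI (1 - 2 * (y₀ / 2) / (A + 4) ^ 2) (y₀ ^ 5) X X' (by linarith)
        (by linarith) (by positivity) hcd d (toC fun k => cayx (Xs k) 0) hmn
      have hval : 8 / (1 - (1 - 2 * (y₀ / 2) / (A + 4) ^ 2)) ^ 3 * y₀ ^ 5 = e := by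
        rw [he, sub_sub_cancel]
        field_simp
      rw [hval] at hpsi
      rw [hXs1]
      intro k
      obtain ⟨S', hS'1, hS'2⟩ := hXs4 k
      refine pert hδ0 hδ1 hSM ?_ hS'2 heM ?_
      · have h1 : |(S' - S0).im| ≤ 3 * δ / 8 := (Complex.abs_im_le_norm _).trans hS'2
        have h2 := (abs_le.1 h1).2
        rw [Complex.sub_im] at h2
        linarith
      · rw [← hS'1]
        refine le_trans ?_ hpsi
        exact ContinuousMap.norm_coe_le_norm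
          (psi (qlaw X) (toC fun k => cayx (Xs k) 0) -
            psi (qlaw X') (toC fun k => cayx (Xs k) 0)) k) s' hs''
  refine (hZ s' hmem).1.trans ?_
  have h1 : ch / M ^ 2 ≤ ch / (‖S0‖ + δ / 2 + 1) ^ 2 := by
    refine div_le_div_of_nonneg_left hch.le (by positivity) ?_
    refine pow_le_pow_left₀ (by positivity) ?_ 2
    linarith
  linarith

end

end Pool.Agent.N160.SN.SDGU
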